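import Mathlib

/-!
# Decomposable languages, group languages and `Pol(G)`: definitions (for `MP_0c20e5_lc`)
-/

namespace DecompG

variable {A : Type*}

/-- `Shuffle u v w`: the word `w` is in the shuffle of `u` and `v`, i.e.
`w = u₁v₁u₂v₂⋯u_kv_k` with `u = u₁⋯u_k` and `v = v₁⋯v_k` (the list `l` is the list of the pairs
`(u_i, v_i)`). -/
def Shuffle (u v w : List A) : Prop :=
  ∃ l : List (List A × List A), u = (l.map (fun p => p.1)).flatten ∧
    v = (l.map (fun p => p.2)).flatten ∧ w = (l.map (fun p => p.1 ++ p.2)).flatten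

/-- `τ(K) = {(u,v) : uv ∈ K}`. -/
def tau (K : Set (List A)) : Set (List A × List A) := {p | p.1 ++ p.2 ∈ K}

/-- `σ(K) = {(u,v) : (u ⧢ v) ∩ K ≠ ∅}`. -/
def sigma (K : Set (List A)) : Set (List A × List A) := {p | ∃ w ∈ K, Shuffle p.1 p.2 w}

/-- A set `R` of pairs of words is a finite union of sets `L × R` with `L, R ∈ S`. -/
def FiniteUnionOver (S : Set (Set (List A))) (R : Set (List A × List A)) : Prop :=
  ∃ F : Set (Set (List A) × Set (List A)), F.Finite ∧ (∀ p ∈ F, p.1 ∈ S ∧ p.2 ∈ S) ∧
    R = ⋃ p ∈ F, p.1 ×ˢ p.2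

/-- `S` is a finite sequential and parallel system. -/
structure IsSystem (S : Set (Set (List A))) : Prop where
  finite : S.Finite
  seq : ∀ K ∈ S, FiniteUnionOver S (tau K)
  par : ∀ K ∈ S, FiniteUnionOver S (sigma K)

/-- A language is decomposable if it is a member of some finite set of languages which is
a sequential and a parallel system. -/
def Decomposable (K : Set (List A)) : Prop := ∃ S : Set (Set (List A)), IsSystem S ∧ K ∈ S

/-- A group language: `φ⁻¹(U)` for a monoid morphism `φ : A* → G` to a finite group and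
`U ⊆ G`. -/
def IsGroupLanguage (L : Set (List A)) : Prop :=
  ∃ (G : Type) (_ : Group G) (_ : Finite G) (φ : FreeMonoid A →* G) (U : Set G),
    L = {w : List A | φ (FreeMonoid.ofList w) ∈ U}

/-- The product (concatenation) of two languages. -/
def prodLang (K L : Set (List A)) : Set (List A) := {w | ∃ u ∈ K, ∃ v ∈ L, w = u ++ v}

/-- The languages `L₀a₁L₁⋯a_nL_n` (`n ≥ 0`) with group languages `L_i` and letters `a_i`. -/
inductive IsMonomial : Set (List A) → Prop
  | base {L : Set (List A)} : IsGroupLanguage L → IsMonomial L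
  | step {L M : Set (List A)} (a : A) : IsGroupLanguage L → IsMonomial M →
      IsMonomial (prodLang L (prodLang {[a]} M))

/-- `Pol(G)`: the finite unions of languages `L₀a₁L₁⋯a_nL_n`. -/
def PolG (L : Set (List A)) : Prop :=
  ∃ F : Set (Set (List A)), F.Finite ∧ (∀ M ∈ F, IsMonomial M) ∧ L = ⋃₀ F

end DecompG
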