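import Mathlib
import Pool.Agent.DecompG.Defs

/-!
# Closure properties of decomposable languages (for `MP_0c20e5_lc`)
-/

namespace DecompG

variable {A : Type*}

/-! ## The shuffle relation, inductively -/

inductive Shuf : List A → List A → List A → Prop
  | nil : Shuf [] [] []
  | left {a : A} {x y w : List A} : Shuf x y w → Shuf (a :: x) y (a :: w)
  | right {a : A} {x y w : List A} : Shuf x y w → Shuf x (a :: y) (a :: w)

theorem Shuf.append_left {x y w : List A} (H : Shuf x y w) (u : List A) :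
    Shuf (u ++ x) y (u ++ w) := by
  induction u with
  | nil => exact H
  | cons a u ih => exact Shuf.left ih

theorem Shuf.append_right {x y w : List A} (H : Shuf x y w) (u : List A) :
    Shuf x (u ++ y) (u ++ w) := by
  induction u with
  | nil => exact H
  | cons a u ih => exact Shuf.right ih

theorem Shuf.symm {x y w : List A} (H : Shuf x y w) : Shuf y x w := by
  induction H with
  | nil => exact Shuf.nil
  | left _ ih => exact Shuf.right ih
  | right _ ih => exact Shuf.left ih

theorem shuffle_iff {x y w : List A} : Shuffle x y w ↔ Shuf x y w := by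
  constructor
  · rintro ⟨l, rfl, rfl, rfl⟩
    induction l with
    | nil => exact Shuf.nil
    | cons p l ih =>
      simp only [List.map_cons, List.flatten_cons, List.append_assoc]
      exact (ih.append_right p.2).append_left p.1
  · intro H
    induction H with
    | nil => exact ⟨[], rfl, rfl, rfl⟩
    | @left a x y w H ih =>
      obtain ⟨l, rfl, rfl, rfl⟩ := ih
      exact ⟨([a], []) :: l, by simp, by simp, by simp⟩
    | @right a x y w H ih =>
      obtain ⟨l, rfl, rfl, rfl⟩ := ih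
      exact ⟨([], [a]) :: l, by simp, by simp, by simp⟩

theorem Shuf.append {x1 y1 w1 x2 y2 w2 : List A} (H1 : Shuf x1 y1 w1) (H2 : Shuf x2 y2 w2) :
    Shuf (x1 ++ x2) (y1 ++ y2) (w1 ++ w2) := by
  induction H1 with
  | nil => simpa using H2
  | left _ ih => exact Shuf.left ih
  | right _ ih => exact Shuf.right ih

/-- splitting along a factorisation of the left word -/
theorem Shuf.split {x1 x2 y w : List A} (H : Shuf (x1 ++ x2) y w) :
    ∃ y1 y2 w1 w2, y = y1 ++ y2 ∧ w = w1 ++ w2 ∧ Shuf x1 y1 w1 ∧ Shuf x2 y2 w2 := by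
  generalize hx : x1 ++ x2 = x at H
  induction H generalizing x1 with
  | nil =>
    obtain ⟨rfl, rfl⟩ := List.append_eq_nil_iff.mp hx
    exact ⟨[], [], [], [], rfl, rfl, Shuf.nil, Shuf.nil⟩
  | @left a x y w H ih =>
    cases x1 with
    | nil =>
      simp only [List.nil_append] at hx
      subst hx
      exact ⟨[], y, [], _, rfl, rfl, Shuf.nil, Shuf.left H⟩
    | cons b x1 =>
      simp only [List.cons_append, List.cons.injEq] at hx
      obtain ⟨rfl, rfl⟩ := hx
      obtain ⟨y1, y2, w1, w2, rfl, rfl, H1, H2⟩ := ih rfl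
      exact ⟨y1, y2, _ :: w1, w2, rfl, rfl, Shuf.left H1, H2⟩
  | @right a x y w H ih =>
    subst hx
    obtain ⟨y1, y2, w1, w2, rfl, rfl, H1, H2⟩ := ih rfl
    exact ⟨a :: y1, y2, a :: w1, w2, rfl, rfl, Shuf.right H1, H2⟩

/-- splitting along a factorisation of the shuffled word -/
theorem Shuf.split_w {x y w1 w2 : List A} (H : Shuf x y (w1 ++ w2)) :
    ∃ x1 x2 y1 y2, x = x1 ++ x2 ∧ y = y1 ++ y2 ∧ Shuf x1 y1 w1 ∧ Shuf x2 y2 w2 := by
  generalize hw : w1 ++ w2 = w at H
  induction H generalizing w1 with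
  | nil =>
    obtain ⟨rfl, rfl⟩ := List.append_eq_nil_iff.mp hw
    exact ⟨[], [], [], [], rfl, rfl, Shuf.nil, Shuf.nil⟩
  | @left a x y w H ih =>
    cases w1 with
    | nil =>
      simp only [List.nil_append] at hw
      subst hw
      exact ⟨[], _, [], y, rfl, rfl, Shuf.nil, Shuf.left H⟩
    | cons b w1 =>
      simp only [List.cons_append, List.cons.injEq] at hw
      obtain ⟨rfl, rfl⟩ := hw
      obtain ⟨x1, x2, y1, y2, rfl, rfl, H1, H2⟩ := ih rfl
      exact ⟨_ :: x1, x2, y1, y2, rfl, rfl, Shuf.left H1, H2⟩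
  | @right a x y w H ih =>
    cases w1 with
    | nil =>
      simp only [List.nil_append] at hw
      subst hw
      exact ⟨[], x, [], _, rfl, rfl, Shuf.nil, Shuf.right H⟩
    | cons b w1 =>
      simp only [List.cons_append, List.cons.injEq] at hw
      obtain ⟨rfl, rfl⟩ := hw
      obtain ⟨x1, x2, y1, y2, rfl, rfl, H1, H2⟩ := ih rfl
      exact ⟨x1, x2, _ :: y1, y2, rfl, rfl, Shuf.right H1, H2⟩

/-! ## Finite unions of rectangles -/

theorem FiniteUnionOver.mono {S S' : Set (Set (List A))} (h : S ⊆ S')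
    {R : Set (List A × List A)} (H : FiniteUnionOver S R) : FiniteUnionOver S' R := by
  obtain ⟨F, hF, hS, rfl⟩ := H
  exact ⟨F, hF, fun p hp => ⟨h (hS p hp).1, h (hS p hp).2⟩, rfl⟩

theorem FiniteUnionOver.empty (S : Set (Set (List A))) : FiniteUnionOver S ∅ :=
  ⟨∅, Set.finite_empty, by simp, by simp⟩

theorem FiniteUnionOver.rect {S : Set (Set (List A))} {L R : Set (List A)} (hL : L ∈ S)
    (hR : R ∈ S) : FiniteUnionOver S (L ×ˢ R) :=
  ⟨{(L, R)}, Set.finite_singleton _, by rintro p rfl; exact ⟨hL, hR⟩, by simp⟩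

theorem FiniteUnionOver.union {S : Set (Set (List A))} {R R' : Set (List A × List A)}
    (H : FiniteUnionOver S R) (H' : FiniteUnionOver S R') : FiniteUnionOver S (R ∪ R') := by
  obtain ⟨F, hF, hS, rfl⟩ := H
  obtain ⟨F', hF', hS', rfl⟩ := H'
  refine ⟨F ∪ F', hF.union hF', ?_, ?_⟩
  · rintro p (hp | hp)
    · exact hS p hp
    · exact hS' p hp
  · rw [Set.biUnion_union]

theorem FiniteUnionOver.biUnion {ι : Type*} {S : Set (Set (List A))} {I : Set ι} (hI : I.Finite)
    {R : ι → Set (List A × List A)} (H : ∀ i ∈ I, FiniteUnionOver S (R i)) :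
    FiniteUnionOver S (⋃ i ∈ I, R i) := by
  induction I, hI using Set.Finite.induction_on with
  | empty => simpa using FiniteUnionOver.empty S
  | @insert i I _ _ ih =>
    rw [Set.biUnion_insert]
    exact (H i (by simp)).union (ih (fun j hj => H j (by simp [hj])))

/-! ## Closure properties -/

theorem decomposable_empty : Decomposable (∅ : Set (List A)) := by
  refine ⟨{∅}, ⟨Set.finite_singleton _, ?_, ?_⟩, rfl⟩
  · rintro K rfl
    have : tau (∅ : Set (List A)) = ∅ := by ext p; simp [tau]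
    rw [this]; exact FiniteUnionOver.empty _
  · rintro K rfl
    have : sigma (∅ : Set (List A)) = ∅ := by ext p; simp [sigma]
    rw [this]; exact FiniteUnionOver.empty _

theorem tau_union (K L : Set (List A)) : tau (K ∪ L) = tau K ∪ tau L := by
  ext p; simp [tau]

theorem sigma_union (K L : Set (List A)) : sigma (K ∪ L) = sigma K ∪ sigma L := by
  ext p
  constructor
  · rintro ⟨w, hw | hw, h⟩
    · exact Or.inl ⟨w, hw, h⟩
    · exact Or.inr ⟨w, hw, h⟩
  · rintro (⟨w, hw, h⟩ | ⟨w, hw, h⟩)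
    · exact ⟨w, Or.inl hw, h⟩
    · exact ⟨w, Or.inr hw, h⟩

theorem Decomposable.union {K L : Set (List A)} (hK : Decomposable K) (hL : Decomposable L) :
    Decomposable (K ∪ L) := by
  obtain ⟨S, hS, hKS⟩ := hK
  obtain ⟨S', hS', hLS⟩ := hL
  have m1 : S ⊆ S ∪ S' ∪ {K ∪ L} := fun x hx => Or.inl (Or.inl hx)
  have m2 : S' ⊆ S ∪ S' ∪ {K ∪ L} := fun x hx => Or.inl (Or.inr hx)
  refine ⟨S ∪ S' ∪ {K ∪ L}, ⟨(hS.finite.union hS'.finite).union (Set.finite_singleton _), ?_, ?_⟩,
    Or.inr rfl⟩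
  · rintro M ((hM | hM) | rfl)
    · exact (hS.seq M hM).mono m1
    · exact (hS'.seq M hM).mono m2
    · rw [tau_union]
      exact ((hS.seq K hKS).mono m1).union ((hS'.seq L hLS).mono m2)
  · rintro M ((hM | hM) | rfl)
    · exact (hS.par M hM).mono m1
    · exact (hS'.par M hM).mono m2
    · rw [sigma_union]
      exact ((hS.par K hKS).mono m1).union ((hS'.par L hLS).mono m2)

theorem decomposable_sUnion {F : Set (Set (List A))} (hF : F.Finite)
    (H : ∀ M ∈ F, Decomposable M) : Decomposable (⋃₀ F) := by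
  induction F, hF using Set.Finite.induction_on with
  | empty => simpa using decomposable_empty
  | @insert K F _ _ ih =>
    rw [Set.sUnion_insert]
    exact (H K (by simp)).union (ih (fun M hM => H M (by simp [hM])))

theorem decomposable_singleton (a : A) : Decomposable ({[a]} : Set (List A)) := by
  have hnil : ({[]} : Set (List A)) ∈ ({{[]}, {[a]}} : Set (Set (List A))) := by simp
  have ha : ({[a]} : Set (List A)) ∈ ({{[]}, {[a]}} : Set (Set (List A))) := by simp
  refine ⟨{{[]}, {[a]}}, ⟨by simp, ?_, ?_⟩, ha⟩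
  · rintro K (rfl | rfl)
    · have : tau ({[]} : Set (List A)) = {[]} ×ˢ {[]} := by
        ext ⟨u, v⟩; simp [tau]
      rw [this]; exact FiniteUnionOver.rect hnil hnil
    · have : tau ({[a]} : Set (List A)) = ({[]} ×ˢ {[a]}) ∪ ({[a]} ×ˢ {[]}) := by
        ext ⟨u, v⟩
        simp only [tau, Set.mem_ofPred_eq, Set.mem_singleton_iff, Set.mem_union, Set.mem_prod]
        exact List.append_eq_singleton_iff
      rw [this]
      exact (FiniteUnionOver.rect hnil ha).union (FiniteUnionOver.rect ha hnil)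
  · rintro K (rfl | rfl)
    · have : sigma ({[]} : Set (List A)) = {[]} ×ˢ {[]} := by
        ext ⟨u, v⟩
        constructor
        · rintro ⟨w, rfl, h⟩
          rw [shuffle_iff] at h
          cases h
          simp
        · rintro ⟨rfl, rfl⟩
          exact ⟨[], rfl, shuffle_iff.2 Shuf.nil⟩
      rw [this]; exact FiniteUnionOver.rect hnil hnil
    · have : sigma ({[a]} : Set (List A)) = ({[]} ×ˢ {[a]}) ∪ ({[a]} ×ˢ {[]}) := by
        ext ⟨u, v⟩
        constructor
        · rintro ⟨w, rfl, h⟩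
          rw [shuffle_iff] at h
          simp only at h
          cases h with
          | left h => cases h; right; simp
          | right h => cases h; left; simp
        · rintro (⟨rfl, rfl⟩ | ⟨rfl, rfl⟩)
          · exact ⟨[a], rfl, shuffle_iff.2 (Shuf.right Shuf.nil)⟩
          · exact ⟨[a], rfl, shuffle_iff.2 (Shuf.left Shuf.nil)⟩
      rw [this]
      exact (FiniteUnionOver.rect hnil ha).union (FiniteUnionOver.rect ha hnil)

theorem Decomposable.prod {K L : Set (List A)} (hK : Decomposable K) (hL : Decomposable L) :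
    Decomposable (prodLang K L) := by
  obtain ⟨S, hS, hKS⟩ := hK
  obtain ⟨S', hS', hLS⟩ := hL
  set P : Set (Set (List A)) := (fun p : Set (List A) × Set (List A) => prodLang p.1 p.2) ''
    (S ×ˢ S') with hP
  have hPfin : P.Finite := (hS.finite.prod hS'.finite).image _
  have m1 : S ⊆ S ∪ S' ∪ P := fun x hx => Or.inl (Or.inl hx)
  have m2 : S' ⊆ S ∪ S' ∪ P := fun x hx => Or.inl (Or.inr hx)
  have m3 : ∀ X ∈ S, ∀ Y ∈ S', prodLang X Y ∈ S ∪ S' ∪ P :=
    fun X hX Y hY => Or.inr ⟨(X, Y), ⟨hX, hY⟩, rfl⟩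
  refine ⟨S ∪ S' ∪ P, ⟨(hS.finite.union hS'.finite).union hPfin, ?_, ?_⟩, m3 K hKS L hLS⟩
  · rintro M ((hM | hM) | ⟨⟨X, Y⟩, ⟨hX, hY⟩, rfl⟩)
    · exact (hS.seq M hM).mono m1
    · exact (hS'.seq M hM).mono m2
    · obtain ⟨F, hF, hFS, hτ⟩ := hS.seq X hX
      obtain ⟨F', hF', hFS', hτ'⟩ := hS'.seq Y hY
      have key : tau (prodLang X Y) =
          (⋃ p ∈ F, p.1 ×ˢ (prodLang p.2 Y)) ∪ (⋃ p ∈ F', (prodLang X p.1) ×ˢ p.2) := by
        ext ⟨u, v⟩
        constructor
        · rintro ⟨x, hx, y, hy, huv⟩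
          simp only at huv
          rcases List.append_eq_append_iff.1 huv with ⟨t, rfl, rfl⟩ | ⟨t, rfl, rfl⟩
          · -- x = u ++ t, v = t ++ y
            left
            have : (u, t) ∈ tau X := hx
            rw [hτ] at this
            simp only [Set.mem_iUnion, exists_prop] at this ⊢
            obtain ⟨p, hp, h1, h2⟩ := this
            exact ⟨p, hp, h1, t, h2, y, hy, rfl⟩
          · -- u = x ++ t, y = t ++ v
            right
            have : (t, v) ∈ tau Y := hy
            rw [hτ'] at this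
            simp only [Set.mem_iUnion, exists_prop] at this ⊢
            obtain ⟨p, hp, h1, h2⟩ := this
            exact ⟨p, hp, ⟨x, hx, t, h1, rfl⟩, h2⟩
        · rintro (h | h)
          · simp only [Set.mem_iUnion, exists_prop] at h
            obtain ⟨p, hp, h1, t, ht, y, hy, hv⟩ := h
            simp only at h1 hv
            have : (u, t) ∈ tau X := by
              rw [hτ]; simp only [Set.mem_iUnion, exists_prop]; exact ⟨p, hp, h1, ht⟩
            refine ⟨u ++ t, this, y, hy, ?_⟩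
            simp [hv]
          · simp only [Set.mem_iUnion, exists_prop] at h
            obtain ⟨p, hp, ⟨x, hx, t, ht, hu⟩, h2⟩ := h
            simp only at h2 hu
            have : (t, v) ∈ tau Y := by
              rw [hτ']; simp only [Set.mem_iUnion, exists_prop]; exact ⟨p, hp, ht, h2⟩
            refine ⟨x, hx, t ++ v, this, ?_⟩
            simp [hu]
      rw [key]
      refine (FiniteUnionOver.biUnion hF ?_).union (FiniteUnionOver.biUnion hF' ?_)
      · intro p hp
        exact FiniteUnionOver.rect (m1 (hFS p hp).1) (m3 _ (hFS p hp).2 _ hY)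
      · intro p hp
        exact FiniteUnionOver.rect (m3 _ hX _ (hFS' p hp).1) (m2 (hFS' p hp).2)
  · rintro M ((hM | hM) | ⟨⟨X, Y⟩, ⟨hX, hY⟩, rfl⟩)
    · exact (hS.par M hM).mono m1
    · exact (hS'.par M hM).mono m2
    · obtain ⟨F, hF, hFS, hσ⟩ := hS.par X hX
      obtain ⟨F', hF', hFS', hσ'⟩ := hS'.par Y hY
      have key : sigma (prodLang X Y) =
          ⋃ q ∈ F ×ˢ F', (prodLang q.1.1 q.2.1) ×ˢ (prodLang q.1.2 q.2.2) := by
        ext ⟨u, v⟩
        constructor
        · rintro ⟨w, ⟨x, hx, y, hy, rfl⟩, h⟩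
          rw [shuffle_iff] at h
          obtain ⟨u1, u2, v1, v2, hu, hv, H1, H2⟩ := h.split_w
          simp only at hu hv
          subst hu hv
          have h1 : (u1, v1) ∈ sigma X := ⟨x, hx, shuffle_iff.2 H1⟩
          have h2 : (u2, v2) ∈ sigma Y := ⟨y, hy, shuffle_iff.2 H2⟩
          rw [hσ] at h1
          rw [hσ'] at h2
          simp only [Set.mem_iUnion, exists_prop] at h1 h2 ⊢
          obtain ⟨p, hp, a1, b1⟩ := h1
          obtain ⟨p', hp', a2, b2⟩ := h2
          exact ⟨(p, p'), ⟨hp, hp'⟩, ⟨u1, a1, u2, a2, rfl⟩, ⟨v1, b1, v2, b2, rfl⟩⟩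
        · intro h
          simp only [Set.mem_iUnion, exists_prop] at h
          obtain ⟨⟨p, p'⟩, ⟨hp, hp'⟩, ⟨u1, a1, u2, a2, hu⟩, ⟨v1, b1, v2, b2, hv⟩⟩ := h
          simp only at a1 a2 b1 b2 hu hv hp hp'
          have h1 : (u1, v1) ∈ sigma X := by
            rw [hσ]; simp only [Set.mem_iUnion, exists_prop]; exact ⟨p, hp, a1, b1⟩
          have h2 : (u2, v2) ∈ sigma Y := by
            rw [hσ']; simp only [Set.mem_iUnion, exists_prop]; exact ⟨p', hp', a2, b2⟩
          obtain ⟨x, hx, H1⟩ := h1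
          obtain ⟨y, hy, H2⟩ := h2
          rw [shuffle_iff] at H1 H2
          refine ⟨x ++ y, ⟨x, hx, y, hy, rfl⟩, ?_⟩
          rw [shuffle_iff, hu, hv]
          exact H1.append H2
      rw [key]
      refine FiniteUnionOver.biUnion (hF.prod hF') ?_
      rintro ⟨p, p'⟩ ⟨hp, hp'⟩
      exact FiniteUnionOver.rect (m3 _ (hFS p hp).1 _ (hFS' p' hp').1)
        (m3 _ (hFS p hp).2 _ (hFS' p' hp').2)

/-! ## From a preorder of finite index -/

/-- If `r` is a preorder on words, compatible with the product and with the shuffle, with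
finitely many principal up-sets, then every `r`-closed language is decomposable. -/
theorem decomposable_of_preorder (r : List A → List A → Prop) (hrefl : ∀ x, r x x)
    (htrans : ∀ x y z, r x y → r y z → r x z)
    (hmul : ∀ x x' y y', r x x' → r y y' → r (x ++ y) (x' ++ y'))
    (hshuf : ∀ x x' y w, r x x' → Shuf x y w → ∃ w', Shuf x' y w' ∧ r w w')
    (hfin : (Set.range fun x => {y | r x y}).Finite)
    (U : Set (List A)) (hU : ∀ x y, x ∈ U → r x y → y ∈ U) : Decomposable U := by
  set F : Set (Set (List A)) := Set.range fun x => {y | r x y} with hF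
  set S : Set (Set (List A)) := Set.sUnion '' (𝒫 F) with hS
  have hSfin : S.Finite := (hfin.powerset).image _
  -- the members of `S` are closed
  have hSclosed : ∀ K ∈ S, ∀ x y, x ∈ K → r x y → y ∈ K := by
    rintro K ⟨T, hT, rfl⟩ x y ⟨t, ht, hxt⟩ hxy
    refine ⟨t, ht, ?_⟩
    obtain ⟨z, rfl⟩ := hT ht
    exact htrans _ _ _ hxt hxy
  -- closed sets belong to `S`
  have hclosedS : ∀ K : Set (List A), (∀ x y, x ∈ K → r x y → y ∈ K) → K ∈ S := by
    intro K hK
    refine ⟨{t | t ∈ F ∧ t ⊆ K}, fun t ht => ht.1, ?_⟩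
    ext x
    constructor
    · rintro ⟨t, ⟨_, ht⟩, hx⟩; exact ht hx
    · intro hx
      exact ⟨{y | r x y}, ⟨⟨x, rfl⟩, fun y hy => hK x y hx hy⟩, hrefl x⟩
  have hup : ∀ x, {y | r x y} ∈ S := fun x => hclosedS _ (fun a b ha hb => htrans _ _ _ ha hb)
  -- a closed set of pairs is a finite union of rectangles
  have hrect : ∀ R : Set (List A × List A),
      (∀ u v u' v', (u, v) ∈ R → r u u' → r v v' → (u', v') ∈ R) → FiniteUnionOver S R := by
    intro R hR
    refine ⟨{p | p ∈ F ×ˢ F ∧ p.1 ×ˢ p.2 ⊆ R}, (hfin.prod hfin).subset (fun p hp => hp.1), ?_, ?_⟩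
    · rintro ⟨p, q⟩ ⟨⟨⟨x, rfl⟩, ⟨y, rfl⟩⟩, -⟩
      exact ⟨hup x, hup y⟩
    · ext ⟨u, v⟩
      simp only [Set.mem_iUnion, exists_prop]
      constructor
      · intro huv
        refine ⟨({y | r u y}, {y | r v y}), ⟨⟨⟨u, rfl⟩, ⟨v, rfl⟩⟩, ?_⟩, hrefl u, hrefl v⟩
        rintro ⟨u', v'⟩ ⟨hu, hv⟩
        exact hR u v u' v' huv hu hv
      · rintro ⟨p, ⟨-, hp⟩, h⟩
        exact hp h
  refine ⟨S, ⟨hSfin, ?_, ?_⟩, hclosedS U hU⟩
  · intro K hK
    apply hrect
    intro u v u' v' huv hu hv
    exact hSclosed K hK (u ++ v) (u' ++ v') huv (hmul _ _ _ _ hu hv)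
  · intro K hK
    apply hrect
    rintro u v u' v' ⟨w, hw, hsh⟩ hu hv
    rw [shuffle_iff] at hsh
    obtain ⟨w', hw', hr⟩ := hshuf _ _ _ _ hu hsh
    obtain ⟨w'', hw'', hr'⟩ := hshuf _ _ _ _ hv hw'.symm
    exact ⟨w'', hSclosed K hK _ _ (hSclosed K hK _ _ hw hr) hr', shuffle_iff.2 hw''.symm⟩

end DecompG
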