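import Mathlib

/-!
# The insertion game on lists of prefix values (for `MP_0c20e5_lc`)

`G` is a group.  A word over a group-valued alphabet is described by its list of prefix values
(gaps).  `Ins h s y o h'` says: starting with frame `h`, inserting the word `y` (a list of
letter values) into the gaps `s` produces the list of gaps `o` and ends with frame `h'`.
-/

namespace DecompG

open scoped Pointwise

variable {G : Type*} [Group G]

inductive Ins : G → List G → List G → List G → G → Prop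
  | nil (h : G) : Ins h [] [] [] h
  | next {h v : G} {s y o : List G} {h' : G} : Ins h s y o h' → Ins h (v :: s) y ((h * v) :: o) h'
  | ins {h v c : G} {s y o : List G} {h' : G} :
      Ins (h * (v * c * v⁻¹)) (v :: s) y o h' → Ins h (v :: s) (c :: y) ((h * v) :: o) h'

/-- translate of a list -/
def hs (h : G) (s : List G) : List G := s.map (h * ·)

@[simp] theorem hs_nil (h : G) : hs h [] = [] := rfl
@[simp] theorem hs_cons (h v : G) (s : List G) : hs h (v :: s) = (h * v) :: hs h s := rfl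
@[simp] theorem hs_append (h : G) (s t : List G) : hs h (s ++ t) = hs h s ++ hs h t := by
  simp [hs]
@[simp] theorem hs_length (h : G) (s : List G) : (hs h s).length = s.length := by simp [hs]
theorem hs_hs (g h : G) (s : List G) : hs g (hs h s) = hs (g * h) s := by
  simp [hs, mul_assoc]
@[simp] theorem hs_one (s : List G) : hs (1 : G) s = s := by simp [hs]
theorem hs_inv_hs (g : G) (s : List G) : hs g⁻¹ (hs g s) = s := by simp [hs_hs]
theorem hs_hs_inv (g : G) (s : List G) : hs g (hs g⁻¹ s) = s := by simp [hs_hs]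
theorem mem_hs {h v : G} {s : List G} : v ∈ hs h s ↔ ∃ w ∈ s, h * w = v := by simp [hs]
theorem hs_sublist {h : G} {s t : List G} (H : s.Sublist t) : (hs h s).Sublist (hs h t) :=
  H.map _

/-! ## Basic properties of `Ins` -/

theorem Ins.nil_y {h : G} {s : List G} : Ins h s [] (hs h s) h := by
  induction s with
  | nil => exact Ins.nil h
  | cons v s ih => exact Ins.next ih

theorem Ins.nil_s {h : G} {y o : List G} {h' : G} (H : Ins h [] y o h') :
    y = [] ∧ o = [] ∧ h' = h := by
  cases H; simp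

theorem Ins.left {h : G} {s y o : List G} {h' : G} (H : Ins h s y o h') (k : G) :
    Ins (k * h) s y (hs k o) (k * h') := by
  induction H with
  | nil h => exact Ins.nil _
  | @next h v s y o h' H ih =>
    have := Ins.next (v := v) ih
    simpa [mul_assoc] using this
  | @ins h v c s y o h' H ih =>
    have := Ins.ins (h := k * h) (v := v) (c := c) (s := s) (y := y) (o := hs k o) (h' := k * h')
      (by simpa [mul_assoc] using ih)
    simpa [mul_assoc] using this

theorem Ins.right {h : G} {s y o : List G} {h' : G} (H : Ins h s y o h') (k : G) :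
    Ins (h * k⁻¹) (hs k s) y o (h' * k⁻¹) := by
  induction H with
  | nil h => exact Ins.nil _
  | @next h v s y o h' H ih =>
    have := Ins.next (v := k * v) ih
    simpa [mul_assoc] using this
  | @ins h v c s y o h' H ih =>
    have := Ins.ins (h := h * k⁻¹) (v := k * v) (c := c) (s := hs k s) (y := y) (o := o)
      (h' := h' * k⁻¹) (by simpa [mul_assoc] using ih)
    simpa [mul_assoc] using this

/-- splitting over append -/
theorem Ins.append {s2 y2 o2 : List G} {h1 h2 : G} (H2 : Ins h1 s2 y2 o2 h2)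
    {h : G} {s1 y1 o1 : List G} (H1 : Ins h s1 y1 o1 h1) :
    Ins h (s1 ++ s2) (y1 ++ y2) (o1 ++ o2) h2 := by
  induction H1 with
  | nil h => simpa using H2
  | next H ih => exact Ins.next (ih H2)
  | ins H ih => exact Ins.ins (ih H2)

theorem Ins.split {h : G} {s1 s2 y o : List G} {h' : G} (H : Ins h (s1 ++ s2) y o h') :
    ∃ y1 y2 o1 o2 h1, y = y1 ++ y2 ∧ o = o1 ++ o2 ∧ Ins h s1 y1 o1 h1 ∧ Ins h1 s2 y2 o2 h' := by
  generalize hs' : s1 ++ s2 = s at H
  induction H generalizing s1 with
  | nil h =>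
    obtain ⟨rfl, rfl⟩ := List.append_eq_nil_iff.mp hs'
    exact ⟨[], [], [], [], h, rfl, rfl, Ins.nil h, Ins.nil h⟩
  | @next h v s y o h' H ih =>
    cases s1 with
    | nil =>
      simp only [List.nil_append] at hs'
      subst hs'
      exact ⟨[], y, [], _, h, rfl, rfl, Ins.nil h, Ins.next H⟩
    | cons w s1 =>
      simp only [List.cons_append, List.cons.injEq] at hs'
      obtain ⟨rfl, rfl⟩ := hs'
      obtain ⟨y1, y2, o1, o2, h1, rfl, rfl, A, B⟩ := ih rfl
      exact ⟨y1, y2, _ :: o1, o2, h1, rfl, rfl, Ins.next A, B⟩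
  | @ins h v c s y o h' H ih =>
    cases s1 with
    | nil =>
      simp only [List.nil_append] at hs'
      subst hs'
      exact ⟨[], c :: y, [], _, h, rfl, rfl, Ins.nil h, Ins.ins H⟩
    | cons w s1 =>
      simp only [List.cons_append, List.cons.injEq] at hs'
      obtain ⟨rfl, rfl⟩ := hs'
      obtain ⟨y1, y2, o1, o2, h1, rfl, rfl, A, B⟩ := ih (s1 := w :: s1) rfl
      exact ⟨c :: y1, y2, _ :: o1, o2, h1, rfl, rfl, Ins.ins A, B⟩

/-! ## The largest simulation -/

def Sim (R : List G → List G → Prop) : Prop :=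
  ∀ s s', R s s' → ∀ y o h, Ins 1 s y o h → ∃ o', Ins 1 s' y o' h ∧ R o o'

/-- the largest simulation preorder of the insertion game -/
def le (s s' : List G) : Prop := ∃ R, Sim R ∧ R s s'

theorem sim_le : Sim (le (G := G)) := by
  rintro s s' ⟨R, hR, hss⟩ y o h H
  obtain ⟨o', H', ho⟩ := hR s s' hss y o h H
  exact ⟨o', H', R, hR, ho⟩

theorem Ins.frame_iff {h : G} {s y o : List G} {h' : G} :
    Ins h s y o h' ↔ Ins 1 s y (hs h⁻¹ o) (h⁻¹ * h') := by
  constructor
  · intro H
    simpa using H.left h⁻¹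
  · intro H
    have := H.left h
    simpa [hs_hs] using this

theorem le_refl (s : List G) : le s s := by
  refine ⟨Eq, ?_, rfl⟩
  rintro s _ rfl y o h H
  exact ⟨o, H, rfl⟩

theorem le_trans {s t u : List G} (h1 : le s t) (h2 : le t u) : le s u := by
  refine ⟨fun a b => ∃ c, le a c ∧ le c b, ?_, t, h1, h2⟩
  rintro a b ⟨c, hac, hcb⟩ y o h H
  obtain ⟨o1, H1, l1⟩ := sim_le _ _ hac y o h H
  obtain ⟨o2, H2, l2⟩ := sim_le _ _ hcb y o1 h H1
  exact ⟨o2, H2, o1, l1, l2⟩

theorem le_hs {s t : List G} (k : G) (h1 : le s t) : le (hs k s) (hs k t) := by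
  refine ⟨fun a b => ∃ k a' b', a = hs k a' ∧ b = hs k b' ∧ le a' b', ?_, k, s, t, rfl, rfl, h1⟩
  rintro a b ⟨k, a', b', rfl, rfl, hab⟩ y o h H
  -- Ins 1 (k•a') y o h → Ins 1 a' y (k⁻¹•o) (k⁻¹ h k)
  have H1 := (H.right k⁻¹)
  rw [hs_inv_hs] at H1
  have H2 := H1.left k⁻¹
  have e : k⁻¹ * (1 * (k⁻¹)⁻¹) = 1 := by simp
  rw [e] at H2
  obtain ⟨o', H', l⟩ := sim_le _ _ hab _ _ _ H2
  have H3 := (H'.right k).left k
  have e2 : k * (1 * k⁻¹) = 1 := by simp
  have e3 : k * (k⁻¹ * (h * (k⁻¹)⁻¹) * k⁻¹) = h := by group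
  rw [e2, e3] at H3
  exact ⟨hs k o', H3, k, hs k⁻¹ o, o', (hs_hs_inv k o).symm, rfl, l⟩

theorem le_hs_iff {s t : List G} (k : G) : le (hs k s) (hs k t) ↔ le s t := by
  constructor
  · intro h
    have := le_hs k⁻¹ h
    simpa [hs_inv_hs] using this
  · exact le_hs k

/-- response in any frame -/
theorem le_ins {s t : List G} (hst : le s t) {h : G} {y o : List G} {h' : G}
    (H : Ins h s y o h') : ∃ o', Ins h t y o' h' ∧ le o o' := by
  rw [Ins.frame_iff] at H
  obtain ⟨o', H', l⟩ := sim_le _ _ hst _ _ _ H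
  refine ⟨hs h o', ?_, ?_⟩
  · rw [Ins.frame_iff, hs_inv_hs]; exact H'
  · have := le_hs h l
    simpa [hs_hs_inv] using this

theorem ins_sublist {s s' : List G} (hss : s.Sublist s') :
    ∀ {h : G} {y o : List G} {h' : G}, Ins h s y o h' → ∃ o', Ins h s' y o' h' ∧ o.Sublist o' := by
  induction hss with
  | slnil => intro h y o h' H; exact ⟨o, H, List.Sublist.refl _⟩
  | @cons s s' v hss ih =>
    intro h y o h' H
    obtain ⟨o', H', l⟩ := ih H
    exact ⟨_, Ins.next H', l.cons _⟩
  | @cons_cons s s' v hss ih =>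
    intro h y
    induction y generalizing h with
    | nil =>
      intro o h' H
      cases H with
      | next H => obtain ⟨o', H', l⟩ := ih H; exact ⟨_, Ins.next H', l.cons_cons _⟩
    | cons c y ihy =>
      intro o h' H
      cases H with
      | next H => obtain ⟨o', H', l⟩ := ih H; exact ⟨_, Ins.next H', l.cons_cons _⟩
      | ins H => obtain ⟨o', H', l⟩ := ihy H; exact ⟨_, Ins.ins H', l.cons_cons _⟩

theorem le_of_sublist {s t : List G} (hst : s.Sublist t) : le s t := by
  refine ⟨List.Sublist, ?_, hst⟩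
  intro a b hab y o h H
  exact ins_sublist hab H

theorem le_append {s1 t1 s2 t2 : List G} (h1 : le s1 t1) (h2 : le s2 t2) :
    le (s1 ++ s2) (t1 ++ t2) := by
  refine ⟨fun a b => ∃ a1 a2 b1 b2, a = a1 ++ a2 ∧ b = b1 ++ b2 ∧ le a1 b1 ∧ le a2 b2, ?_,
    s1, s2, t1, t2, rfl, rfl, h1, h2⟩
  rintro a b ⟨a1, a2, b1, b2, rfl, rfl, l1, l2⟩ y o h H
  obtain ⟨y1, y2, o1, o2, h1, rfl, rfl, A, B⟩ := H.split
  obtain ⟨o1', A', m1⟩ := le_ins l1 A
  obtain ⟨o2', B', m2⟩ := le_ins l2 B
  exact ⟨o1' ++ o2', Ins.append B' A', o1, o2, o1', o2', rfl, rfl, m1, m2⟩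

/-- inserting a chunk at a vertex -/
theorem Ins.chunk {h v : G} {s y o : List G} {h' : G} (w : List G)
    (H : Ins (h * (v * w.prod * v⁻¹)) (v :: s) y o h') :
    ∃ o', Ins h (v :: s) (w ++ y) o' h' ∧ o.Sublist o' := by
  induction w generalizing h with
  | nil => refine ⟨o, ?_, List.Sublist.refl _⟩; simpa using H
  | cons c w ih =>
    have : h * (v * (c :: w).prod * v⁻¹) = (h * (v * c * v⁻¹)) * (v * w.prod * v⁻¹) := by
      simp [mul_assoc]
    rw [this] at H
    obtain ⟨o', H', l⟩ := ih H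
    exact ⟨_, Ins.ins H', l.cons _⟩

end DecompG
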