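import Pool.Agent.DecompG.Reduce

/-!
# Finite index of the simulation preorder, from the domination statement
-/

set_option autoImplicit false
set_option linter.unusedSectionVars false

namespace DecompG

section Stutter

variable {G : Type*} [Group G]

/-! ### Stuttering -/

/-- `Stut s t`: the list `s` is obtained from `t` by repeating entries. -/
inductive Stut : List G → List G → Prop
  | nil : Stut [] []
  | cons (v : G) {s t : List G} : Stut s t → Stut (v :: s) (v :: t)
  | dup (v : G) {s t : List G} : Stut (v :: s) (v :: t) → Stut (v :: v :: s) (v :: t)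

theorem Ins.head {h v : G} {s y o : List G} {h' : G} (H : Ins h (v :: s) y o h') :
    ∃ o1, o = (h * v) :: o1 := by
  cases H with
  | next H => exact ⟨_, rfl⟩
  | ins H => exact ⟨_, rfl⟩

theorem Stut.ins {h : G} {s y o : List G} {h' : G} (H : Ins h s y o h') :
    ∀ {t : List G}, Stut s t → ∃ o', Ins h t y o' h' ∧ Stut o o' := by
  induction H with
  | nil h =>
    intro t ht
    cases ht
    exact ⟨[], Ins.nil h, Stut.nil⟩
  | @next h v s y o h' H ih =>
    intro t ht
    cases ht with
    | @cons _ _ t' ht =>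
      obtain ⟨o', h1, h2⟩ := ih ht
      exact ⟨_, Ins.next h1, Stut.cons _ h2⟩
    | @dup _ s' t' ht =>
      obtain ⟨o', h1, h2⟩ := ih ht
      obtain ⟨o1, rfl⟩ := H.head
      obtain ⟨o2, rfl⟩ := h1.head
      exact ⟨_, h1, Stut.dup _ h2⟩
  | @ins h v c s y o h' H ih =>
    intro t ht
    have : ∃ t', t = v :: t' := by
      cases ht with
      | cons => exact ⟨_, rfl⟩
      | dup => exact ⟨_, rfl⟩
    obtain ⟨t', rfl⟩ := this
    obtain ⟨o', h1, h2⟩ := ih ht
    exact ⟨_, Ins.ins h1, Stut.cons _ h2⟩

theorem le_of_stut {s t : List G} (h : Stut s t) : le s t :=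
  ⟨Stut, fun _ _ h _ _ _ H => Stut.ins H h, h⟩

theorem stut_const {v : G} : ∀ {s : List G}, (∀ w ∈ s, w = v) → Stut (v :: s) [v] := by
  intro s
  induction s with
  | nil => intro _; exact Stut.cons v Stut.nil
  | cons w s ih =>
    intro h
    have hw : w = v := h w (by simp)
    subst hw
    exact Stut.dup _ (ih (fun x hx => h x (by simp [hx])))

/-- Every list over `{v}` is below every list containing `v`. -/
theorem le_const {v : G} {s t : List G} (hs : ∀ w ∈ s, w = v) (ht : v ∈ t) : le s t :=
  le_trans (le_of_sublist (List.sublist_cons_self v s))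
    (le_trans (le_of_stut (stut_const hs)) (le_of_sublist (List.singleton_sublist.2 ht)))

end Stutter

section FiniteIndex

open scoped Pointwise

/-- The pieces of level one. -/
def P1 {G : Type*} (F : Finset G) (p : List G) : Prop := ∃ v, F = {v} ∧ p = [v]

theorem isPiece_P1 {G : Type*} [Group G] [DecidableEq G] : IsPiece 1 (P1 (G := G)) where
  cov := by
    rintro F p _ ⟨v, rfl, rfl⟩ w hw
    simpa using hw
  smul := by
    rintro F p h _ ⟨v, rfl, rfl⟩
    exact ⟨h * v, by simp, rfl⟩
  serve := by
    rintro F p c t u _ ⟨v, rfl, rfl⟩ ht hu hc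
    obtain rfl : u = v := by simpa using hu
    exact ⟨[], u, [], rfl, hc, u, rfl, rfl⟩
  exist := by
    refine ⟨1, fun F hF => ?_⟩
    obtain ⟨v, rfl⟩ := Finset.card_eq_one.1 hF
    exact ⟨[v], ⟨v, rfl, rfl⟩, by simp, by simp⟩

variable {G : Type*} [Group G] [DecidableEq G]

theorem rl_singletons (N : ℕ) (s : List G) :
    Rl P1 1 N 1 (s.map fun v => ({v} : Finset G)) s := by
  induction s with
  | nil => exact Rl.nil _
  | cons v s ih =>
    have h1 : Real1 P1 1 N 1 ({v} : Finset G) [v] := by
      refine Or.inl ⟨by simp, ?_⟩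
      have := Pcs.succ (P := P1) (F := ({v} : Finset G)) (n := 0) (p := [v]) (b := [v]) (q := [])
        ⟨v, rfl, rfl⟩ (List.Sublist.refl _) (Pcs.zero _)
      simpa using this
    exact Rl.cons h1 ih

theorem cov_singletons (s : List G) : Cov (s.map fun v => ({v} : Finset G)) s := by
  induction s with
  | nil => exact Cov.nil
  | cons v s ih => exact Cov.add (by simp) (Cov.skip ih)

theorem le_of_cov_rl {N : ℕ} (hN : 1 ≤ N)
    (hDom : ∀ T : Finset G, 2 ≤ T.card → ∀ s q, (∀ v ∈ s, v ∈ T) → Blk T N q → le s q)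
    {δ : List (Finset G)} : ∀ {s t : List G}, Cov δ s → Rl P1 1 N 1 δ t → le s t := by
  induction δ with
  | nil =>
    intro s t hs _
    rw [hs.nil_eq]
    exact le_of_sublist (List.nil_sublist _)
  | cons F δ ih =>
    intro s t hs ht
    obtain ⟨s1, s2, rfl, h1, h2⟩ := hs.split_cons
    cases ht with
    | @cons _ _ q1 q2 hq hr =>
      refine le_append ?_ (ih h2 hr)
      rcases hq with ⟨hc, hp⟩ | ⟨hc, hb⟩
      · obtain ⟨v, rfl⟩ := Finset.card_eq_one.1 hc
        refine le_const (v := v) (fun w hw => by simpa using h1 w hw) ?_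
        exact hp.mem isPiece_P1 hc (Nat.le_refl 1) v (by simp)
      · exact hDom F hc s1 q1 h1 hb

variable [Fintype G]

/-- The covering pattern of a list. -/
theorem exists_pattern {N : ℕ} (hN : 2 ≤ N) (s : List G) :
    ∃ δ : List (Finset G), Cov δ s ∧ Rl P1 1 N 1 δ s ∧ δ.length ≤ N ^ Fintype.card G := by
  obtain ⟨δ, h1, h2, _, h4⟩ := reduce isPiece_P1 (Nat.le_refl 1) hN (Nat.le_refl 1) _ _ s
    (Nat.le_refl _) (rl_singletons N s)
  exact ⟨δ, h1.cov (cov_singletons s), h2, h4⟩

end FiniteIndex

/-- **Finite index**: if long sequences of covering blocks dominate, then the simulation preorder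
has finite index. -/
theorem finite_index {G : Type} [Group G] [DecidableEq G] [Fintype G] {N : ℕ} (hN : 2 ≤ N)
    (hDom : ∀ T : Finset G, 2 ≤ T.card → ∀ s q, (∀ v ∈ s, v ∈ T) → Blk T N q → le s q) :
    ∃ (B : Type) (_ : Finite B) (f : List G → B), ∀ s t, f s = f t → le s t := by
  refine ⟨{δ : List (Finset G) // δ.length ≤ N ^ Fintype.card G}, ?_,
    fun s => ⟨(exists_pattern hN s).choose, (exists_pattern hN s).choose_spec.2.2⟩, ?_⟩
  · exact (List.finite_length_le (Finset G) (N ^ Fintype.card G)).to_subtype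
  · intro s t hst
    have hs := (exists_pattern hN s).choose_spec
    have ht := (exists_pattern hN t).choose_spec
    simp only [Subtype.mk.injEq] at hst
    rw [hst] at hs
    exact le_of_cov_rl (by omega) hDom hs.1 ht.2.1

end DecompG
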