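import Pool.Agent.DecompG.Core

/-!
# Groupings of lists of sets, and the potential lemma
-/

set_option linter.unusedSectionVars false

namespace DecompG

open scoped Pointwise

variable {G : Type*} [Group G] [DecidableEq G]

/-- union of a list of finsets -/
def UN (X : List (Finset G)) : Finset G := X.foldr (· ∪ ·) ∅

@[simp] theorem UN_nil : UN ([] : List (Finset G)) = ∅ := rfl
@[simp] theorem UN_cons (A : Finset G) (X : List (Finset G)) : UN (A :: X) = A ∪ UN X := rfl
@[simp] theorem UN_append (X Y : List (Finset G)) : UN (X ++ Y) = UN X ∪ UN Y := by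
  induction X with
  | nil => simp
  | cons A X ih => simp [ih, Finset.union_assoc]

theorem mem_UN {v : G} {X : List (Finset G)} : v ∈ UN X ↔ ∃ A ∈ X, v ∈ A := by
  induction X with
  | nil => simp
  | cons A X ih => simp [ih]

theorem subset_UN {A : Finset G} {X : List (Finset G)} (h : A ∈ X) : A ⊆ UN X := by
  intro v hv; exact mem_UN.mpr ⟨A, h, hv⟩

/-- the list `s` splits into segments lying inside the sets of `β` -/
inductive Cov : List (Finset G) → List G → Prop
  | nil : Cov [] []
  | skip {F : Finset G} {β : List (Finset G)} {s : List G} : Cov β s → Cov (F :: β) s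
  | add {F : Finset G} {β : List (Finset G)} {v : G} {s : List G} :
      v ∈ F → Cov (F :: β) s → Cov (F :: β) (v :: s)

theorem Cov.seg {F : Finset G} {β : List (Finset G)} {s : List G} (H : Cov β s) :
    ∀ s1 : List G, (∀ v ∈ s1, v ∈ F) → Cov (F :: β) (s1 ++ s) := by
  intro s1
  induction s1 with
  | nil => intro _; exact Cov.skip H
  | cons v s1 ih =>
    intro h
    exact Cov.add (h v (by simp)) (ih (fun w hw => h w (by simp [hw])))

theorem Cov.split_cons {F : Finset G} {β : List (Finset G)} {s : List G} (H : Cov (F :: β) s) :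
    ∃ s1 s2, s = s1 ++ s2 ∧ (∀ v ∈ s1, v ∈ F) ∧ Cov β s2 := by
  generalize hX : F :: β = X at H
  induction H with
  | nil => cases hX
  | skip H _ => cases hX; exact ⟨[], _, rfl, by simp, H⟩
  | @add F' β' v s hv H ih =>
    cases hX
    obtain ⟨s1, s2, rfl, h1, h2⟩ := ih rfl
    refine ⟨v :: s1, s2, rfl, ?_, h2⟩
    intro w hw
    rcases List.mem_cons.mp hw with rfl | hw
    · exact hv
    · exact h1 w hw

theorem Cov.append {β1 β2 : List (Finset G)} {s1 s2 : List G} (H1 : Cov β1 s1) (H2 : Cov β2 s2) :
    Cov (β1 ++ β2) (s1 ++ s2) := by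
  induction H1 with
  | nil => simpa using H2
  | skip _ ih => exact Cov.skip ih
  | add hv _ ih => exact Cov.add hv ih

theorem Cov.nil_eq {s : List G} (H : Cov ([] : List (Finset G)) s) : s = [] := by
  cases H; rfl

/-- grouping: `δ` consists of the unions of consecutive nonempty segments of `X` -/
inductive Grp : List (Finset G) → List (Finset G) → Prop
  | nil : Grp [] []
  | new {A : Finset G} {X δ : List (Finset G)} : Grp X δ → Grp (A :: X) (A :: δ)
  | merge {A D : Finset G} {X δ : List (Finset G)} : Grp X (D :: δ) → Grp (A :: X) ((A ∪ D) :: δ)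

theorem Grp.refl (X : List (Finset G)) : Grp X X := by
  induction X with
  | nil => exact Grp.nil
  | cons A X ih => exact Grp.new ih

theorem Grp.append {X1 δ1 X2 δ2 : List (Finset G)} (H1 : Grp X1 δ1) (H2 : Grp X2 δ2) :
    Grp (X1 ++ X2) (δ1 ++ δ2) := by
  induction H1 with
  | nil => simpa using H2
  | new _ ih => exact Grp.new ih
  | merge _ ih => exact Grp.merge ih

theorem Grp.trans {X Y Z : List (Finset G)} (H1 : Grp X Y) (H2 : Grp Y Z) : Grp X Z := by
  induction H1 generalizing Z with
  | nil => exact H2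
  | @new A X δ H ih =>
    cases H2 with
    | new H2 => exact Grp.new (ih H2)
    | merge H2 => exact Grp.merge (ih H2)
  | @merge A D X δ H ih =>
    cases H2 with
    | new H2 => exact Grp.merge (ih (Grp.new H2))
    | @merge _ E _ δ' H2 =>
      rw [Finset.union_assoc]
      exact Grp.merge (ih (Grp.merge H2))

theorem Grp.single {X : List (Finset G)} (hX : X ≠ []) : Grp X [UN X] := by
  induction X with
  | nil => exact absurd rfl hX
  | cons A X ih =>
    cases X with
    | nil => simpa using Grp.new Grp.nil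
    | cons B X => exact Grp.merge (ih (by simp))

theorem Grp.const {X : List (Finset G)} (hX : X ≠ []) {B : Finset G} (h : ∀ A ∈ X, A = B) :
    Grp X [B] := by
  have h1 := Grp.single hX
  have : UN X = B := by
    ext v
    rw [mem_UN]
    constructor
    · rintro ⟨A, hA, hv⟩; rw [← h A hA]; exact hv
    · intro hv
      obtain ⟨A, hA⟩ := List.exists_mem_of_ne_nil X hX
      exact ⟨A, hA, by rw [h A hA]; exact hv⟩
  rwa [this] at h1

theorem Cov.mono {D E : Finset G} {δ : List (Finset G)} {s : List G} (hDE : D ⊆ E)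
    (H : Cov (D :: δ) s) : Cov (E :: δ) s := by
  obtain ⟨s1, s2, rfl, h1, h2⟩ := H.split_cons
  exact h2.seg s1 (fun v hv => hDE (h1 v hv))

theorem Grp.cov {X δ : List (Finset G)} (H : Grp X δ) : ∀ {s : List G}, Cov X s → Cov δ s := by
  induction H with
  | nil => intro s h; exact h
  | new H ih =>
    intro s h
    obtain ⟨s1, s2, rfl, h1, h2⟩ := h.split_cons
    exact (ih h2).seg s1 h1
  | @merge A D X δ H ih =>
    intro s h
    obtain ⟨s1, s2, rfl, h1, h2⟩ := h.split_cons
    have h3 := (ih h2).mono (E := A ∪ D) Finset.subset_union_right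
    clear ih h2 h
    induction s1 with
    | nil => simpa using h3
    | cons v s1 ih =>
      exact Cov.add (Finset.mem_union_left _ (h1 v (by simp)))
        (ih (fun w hw => h1 w (by simp [hw])))

/-! ## Expansions -/

/-- incomparable finsets -/
def Inc (A B : Finset G) : Prop := ¬ A ⊆ B ∧ ¬ B ⊆ A

/-- `XL k h β X e` : `X` is an expansion of `β` starting at frame `h`; `e = 1` if we know that some
set of size `k` has been moved effectively. -/
inductive XL (k : ℕ) : G → List (Finset G) → List (Finset G) → ℕ → Prop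
  | last (h : G) (F : Finset G) : XL k h [F] [h • F] 0
  | frame {h h' : G} {F : Finset G} {β X : List (Finset G)} {e : ℕ} :
      XL k h' (F :: β) X e → XL k h (F :: β) ((h • F) :: X) e
  | frameE {h h' : G} {F : Finset G} {β X : List (Finset G)} {e : ℕ} :
      XL k h' (F :: β) X e → F.card = k → h • F ≠ h' • F → XL k h (F :: β) ((h • F) :: X) 1
  | next {h : G} {F0 F : Finset G} {β X : List (Finset G)} {e : ℕ} :
      XL k h (F :: β) X e → XL k h (F0 :: F :: β) ((h • F0) :: X) e

/-- the potential -/
def W (C : ℕ) (β : List (Finset G)) : ℕ := (β.map (fun F => C ^ F.card)).sum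

@[simp] theorem W_nil (C : ℕ) : W C ([] : List (Finset G)) = 0 := rfl
@[simp] theorem W_cons (C : ℕ) (F : Finset G) (β : List (Finset G)) :
    W C (F :: β) = C ^ F.card + W C β := by simp [W]
@[simp] theorem W_append (C : ℕ) (β1 β2 : List (Finset G)) :
    W C (β1 ++ β2) = W C β1 + W C β2 := by simp [W]

theorem W_lt {R : ℕ} {β : List (Finset G)} {d : ℕ} (hβ : β.length ≤ R)
    (h : ∀ X ∈ β, X.card < d) : W (R + 1) β + 1 ≤ (R + 1) ^ d := by
  cases d with
  | zero =>
    cases β with
    | nil => simp
    | cons A β => exact absurd (h A (by simp)) (by simp)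
  | succ d =>
    have h1 : W (R + 1) β ≤ β.length * (R + 1) ^ d := by
      unfold W
      have := List.sum_le_card_nsmul (β.map (fun F => (R + 1) ^ F.card)) ((R + 1) ^ d) (by
        intro x hx
        obtain ⟨F, hF, rfl⟩ := List.mem_map.mp hx
        exact Nat.pow_le_pow_right (by omega) (by have := h F hF; omega))
      simpa using this
    have h2 : β.length * (R + 1) ^ d ≤ R * (R + 1) ^ d := Nat.mul_le_mul_right _ hβ
    have h3 : 1 ≤ (R + 1) ^ d := Nat.one_le_pow _ _ (by omega)
    calc W (R + 1) β + 1 ≤ R * (R + 1) ^ d + (R + 1) ^ d := by omega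
      _ = (R + 1) ^ (d + 1) := by ring

theorem W_le_of_length {R g : ℕ} {β : List (Finset G)} (hβ : β.length ≤ R)
    (h : ∀ X ∈ β, X.card ≤ g) : W (R + 1) β + 1 ≤ (R + 1) ^ (g + 1) :=
  W_lt hβ (fun X hX => Nat.lt_succ_of_le (h X hX))

theorem XL.e_le {k : ℕ} {h : G} {β X : List (Finset G)} {e : ℕ} (H : XL k h β X e) : e ≤ 1 := by
  induction H <;> omega

/-- invariant of the potential argument -/
def Inv (R : ℕ) (h : G) (F : Finset G) (β : List (Finset G)) (e : ℕ) (D : Finset G)
    (δ : List (Finset G)) : Prop :=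
  h • F ⊆ D ∧ ∃ β1 β2 s, F :: β = β1 ++ β2 ∧ W (R + 1) β2 + s ≤ W (R + 1) δ ∧
    ((∀ X ∈ β1, X.card < D.card) ∨ (β1 = [F] ∧ e ≤ s))

theorem Inv.le {R : ℕ} {h : G} {F : Finset G} {β : List (Finset G)} {e : ℕ} {D : Finset G}
    {δ : List (Finset G)} (H : Inv R h F β e D δ) (hR : (F :: β).length ≤ R) (he : e ≤ 1) :
    W (R + 1) (F :: β) + e ≤ W (R + 1) (D :: δ) := by
  obtain ⟨hD, β1, β2, s, hβ, hW, h1 | ⟨h1, h2⟩⟩ := H
  · have hl : β1.length ≤ R := by
      have := congrArg List.length hβ
      simp only [List.length_append] at this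
      omega
    have := W_lt hl h1
    rw [hβ, W_append, W_cons]
    omega
  · subst h1
    have hc : F.card ≤ D.card := by
      have := Finset.card_le_card hD
      rwa [Finset.card_smul_finset] at this
    have h3 : (R + 1) ^ F.card ≤ (R + 1) ^ D.card := Nat.pow_le_pow_right (by omega) hc
    rw [hβ, W_append, W_cons, W_cons, W_nil]
    omega

theorem XL.inv {R k : ℕ} {h : G} {β X : List (Finset G)} {e : ℕ} (H : XL k h β X e) :
    ∀ {δ : List (Finset G)}, Grp X δ → List.IsChain Inc β → β.length ≤ R →
      ∃ F β0 D δ', β = F :: β0 ∧ δ = D :: δ' ∧ Inv R h F β0 e D δ' := by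
  induction H with
  | last h F =>
    intro δ hg _ _
    cases hg with
    | new hg =>
      cases hg
      exact ⟨F, [], _, [], rfl, rfl, Finset.Subset.refl _, [F], [], 0, rfl, by simp,
        Or.inr ⟨rfl, Nat.le_refl 0⟩⟩
    | merge hg => cases hg
  | @frame h h' F β X e H ih =>
    intro δ hg hI hR
    cases hg with
    | @new _ _ δ1 hg =>
      obtain ⟨F', β0, D, δ', hβ, rfl, hinv⟩ := ih hg hI hR
      cases hβ
      have h1 := hinv.le hR H.e_le
      refine ⟨F, β, h • F, D :: δ', rfl, rfl, Finset.Subset.refl _, [F], β, 1, rfl, ?_,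
        Or.inr ⟨rfl, H.e_le⟩⟩
      have h3 : 1 ≤ (R + 1) ^ F.card := Nat.one_le_pow _ _ (by omega)
      rw [W_cons] at h1
      omega
    | @merge _ D _ δ1 hg =>
      obtain ⟨F', β0, D', δ', hβ, hd, hinv⟩ := ih hg hI hR
      cases hβ; cases hd
      obtain ⟨hD, β1, β2, s, hβ, hW, h1⟩ := hinv
      refine ⟨F, β, _, δ1, rfl, rfl, Finset.subset_union_left, β1, β2, s, hβ, hW, ?_⟩
      rcases h1 with h1 | h1
      · left
        intro X hX
        exact lt_of_lt_of_le (h1 X hX) (Finset.card_le_card Finset.subset_union_right)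
      · right; exact h1
  | @frameE h h' F β X e H hk hne ih =>
    intro δ hg hI hR
    cases hg with
    | @new _ _ δ1 hg =>
      obtain ⟨F', β0, D, δ', hβ, rfl, hinv⟩ := ih hg hI hR
      cases hβ
      have h1 := hinv.le hR H.e_le
      refine ⟨F, β, h • F, D :: δ', rfl, rfl, Finset.Subset.refl _, [F], β, 1, rfl, ?_,
        Or.inr ⟨rfl, Nat.le_refl 1⟩⟩
      have h3 : 1 ≤ (R + 1) ^ F.card := Nat.one_le_pow _ _ (by omega)
      rw [W_cons] at h1
      omega
    | @merge _ D _ δ1 hg =>
      obtain ⟨F', β0, D', δ', hβ, hd, hinv⟩ := ih hg hI hR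
      cases hβ; cases hd
      obtain ⟨hD, β1, β2, s, hβ, hW, h1⟩ := hinv
      refine ⟨F, β, _, δ1, rfl, rfl, Finset.subset_union_left, β1, β2, s, hβ, hW, ?_⟩
      left
      rcases h1 with h1 | h1
      · intro X hX
        exact lt_of_lt_of_le (h1 X hX) (Finset.card_le_card Finset.subset_union_right)
      · intro X hX
        rw [h1.1, List.mem_singleton] at hX
        subst hX
        have h4 : h • X ⊂ h • X ∪ D := by
          refine ⟨Finset.subset_union_left, fun hsub => hne ?_⟩
          have h5 : h' • X ⊆ h • X :=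
            (hD.trans Finset.subset_union_right).trans hsub
          exact (Finset.eq_of_subset_of_card_le h5
            (by rw [Finset.card_smul_finset, Finset.card_smul_finset])).symm
        have := Finset.card_lt_card h4
        rwa [Finset.card_smul_finset] at this
  | @next h F0 F β X e H ih =>
    intro δ hg hI hR
    have hI' : List.IsChain Inc (F :: β) := (List.isChain_cons_cons.mp hI).2
    have hinc : Inc F0 F := (List.isChain_cons_cons.mp hI).1
    have hR' : (F :: β).length ≤ R := by simp only [List.length_cons] at hR ⊢; omega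
    cases hg with
    | @new _ _ δ1 hg =>
      obtain ⟨F', β0, D, δ', hβ, rfl, hinv⟩ := ih hg hI' hR'
      cases hβ
      have h1 := hinv.le hR' H.e_le
      exact ⟨F0, F :: β, h • F0, D :: δ', rfl, rfl, Finset.Subset.refl _, [F0], F :: β, e, rfl,
        h1, Or.inr ⟨rfl, Nat.le_refl e⟩⟩
    | @merge _ D _ δ1 hg =>
      obtain ⟨F', β0, D', δ', hβ, hd, hinv⟩ := ih hg hI' hR'
      cases hβ; cases hd
      obtain ⟨hD, β1, β2, s, hβ, hW, h1⟩ := hinv
      have hlt0 : F0.card < (h • F0 ∪ D).card := by
        have h4 : h • F0 ⊂ h • F0 ∪ D := by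
          refine ⟨Finset.subset_union_left, fun hsub => hinc.2 ?_⟩
          have h5 : h • F ⊆ h • F0 := (hD.trans Finset.subset_union_right).trans hsub
          exact Finset.smul_finset_subset_smul_finset_iff.mp h5
        have := Finset.card_lt_card h4
        rwa [Finset.card_smul_finset] at this
      have hlt1 : F.card < (h • F0 ∪ D).card := by
        have h4 : h • F ⊂ h • F0 ∪ D := by
          refine ⟨hD.trans Finset.subset_union_right, fun hsub => hinc.1 ?_⟩
          have h5 : h • F0 ⊆ h • F := Finset.subset_union_left.trans hsub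
          exact Finset.smul_finset_subset_smul_finset_iff.mp h5
        have := Finset.card_lt_card h4
        rwa [Finset.card_smul_finset] at this
      refine ⟨F0, F :: β, _, δ1, rfl, rfl, Finset.subset_union_left, F0 :: β1, β2, s, by
        rw [hβ]; rfl, hW, ?_⟩
      left
      intro X hX
      rcases List.mem_cons.mp hX with rfl | hX
      · exact hlt0
      · rcases h1 with h1 | h1
        · exact lt_of_lt_of_le (h1 X hX) (Finset.card_le_card Finset.subset_union_right)
        · rw [h1.1, List.mem_singleton] at hX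
          subst hX
          exact hlt1

/-- **Potential lemma** -/
theorem XL.potential {R k : ℕ} {h : G} {β X : List (Finset G)} {e : ℕ} (H : XL k h β X e)
    {δ : List (Finset G)} (hg : Grp X δ) (hI : List.IsChain Inc β) (hR : β.length ≤ R) :
    W (R + 1) β + e ≤ W (R + 1) δ := by
  obtain ⟨F, β0, D, δ', rfl, rfl, hinv⟩ := H.inv hg hI hR
  exact hinv.le hR H.e_le

end DecompG
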