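import Mathlib

/-!
# Immortal (valid) blocks

A *valid* block of rank `r` is a list of vertices of the group `G`, built by the
three-copies rule.  The serve lemma: a request `P` with `t • P = P` which meets the block can be
served at some vertex `v ∈ P` of the block such that, after the part of the block behind `v` has
been multiplied by `t` from the left, the block is still valid of the same rank.
-/

set_option linter.unusedSectionVars false

namespace DecompG

variable {G : Type*} [Group G] [DecidableEq G]

/-- Valid (immortal) lists of rank `r`. -/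
inductive Valid : ℕ → List G → Prop
  | zero (B : List G) : Valid 0 B
  | succ {r : ℕ} {B1 B2 B3 : List G} (h1 : Valid r B1) (h2 : Valid r B2) (h3 : Valid r B3)
      (hc : r + 1 ≤ (B1 ++ (B2 ++ B3)).toFinset.card) : Valid (r + 1) (B1 ++ (B2 ++ B3))

theorem Valid.card_le {r : ℕ} {B : List G} (h : Valid r B) : r ≤ B.toFinset.card := by
  cases h with
  | zero => exact Nat.zero_le _
  | succ h1 h2 h3 hc => exact hc

theorem Valid.cases_succ {r : ℕ} {B : List G} (h : Valid (r + 1) B) :
    ∃ B1 B2 B3, B = B1 ++ (B2 ++ B3) ∧ Valid r B1 ∧ Valid r B2 ∧ Valid r B3 ∧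
      r + 1 ≤ (B1 ++ (B2 ++ B3)).toFinset.card := by
  cases h with
  | succ h1 h2 h3 hc => exact ⟨_, _, _, rfl, h1, h2, h3, hc⟩

theorem card_toFinset_map_mul (h : G) (B : List G) :
    (B.map (h * ·)).toFinset.card = B.toFinset.card := by
  have : (B.map (h * ·)).toFinset = B.toFinset.image (h * ·) := by
    ext x
    simp only [List.mem_toFinset, List.mem_map, Finset.mem_image]
  rw [this]
  exact Finset.card_image_of_injective _ (mul_right_injective h)

theorem Valid.map_mul (h : G) {r : ℕ} {B : List G} (hB : Valid r B) :
    Valid r (B.map (h * ·)) := by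
  induction hB with
  | zero B => exact Valid.zero _
  | @succ r B1 B2 B3 h1 h2 h3 hc ih1 ih2 ih3 =>
    have : (B1 ++ (B2 ++ B3)).map (h * ·) = B1.map (h * ·) ++ (B2.map (h * ·) ++ B3.map (h * ·)) := by
      simp
    rw [this]
    refine Valid.succ ih1 ih2 ih3 ?_
    rw [← this, card_toFinset_map_mul]
    exact hc

/-- The serve lemma: `P` a `t`-invariant request which meets the valid block `B`. -/
theorem Valid.serve {P : G → Prop} {t : G} (hP : ∀ v, P (t * v) ↔ P v) :
    ∀ {r : ℕ} {B : List G}, Valid r B → (∃ v ∈ B, P v) →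
      ∃ a v b, B = a ++ v :: b ∧ P v ∧ Valid r (a ++ v :: b.map (t * ·)) := by
  intro r
  induction r with
  | zero =>
    intro B _ ⟨v, hv, hPv⟩
    obtain ⟨a, b, rfl⟩ := List.append_of_mem hv
    exact ⟨a, v, b, rfl, hPv, Valid.zero _⟩
  | succ r ih =>
    intro B hB hex
    obtain ⟨B1, B2, B3, rfl, h1, h2, h3, hc⟩ := hB.cases_succ
    -- serving inside the third block
    have serve3 : (∃ v ∈ B3, P v) →
        (∀ v ∈ B3, P v → r + 1 ≤ (insert v (B1.toFinset ∪ B2.toFinset)).card) →
        ∃ a v b, B1 ++ (B2 ++ B3) = a ++ v :: b ∧ P v ∧ Valid (r+1) (a ++ v :: b.map (t * ·)) := by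
      intro hex3 hcard
      obtain ⟨a, v, b, rfl, hPv, hV⟩ := ih h3 hex3
      refine ⟨B1 ++ (B2 ++ a), v, b, by simp, hPv, ?_⟩
      have e : B1 ++ (B2 ++ a) ++ v :: b.map (t * ·) = B1 ++ (B2 ++ (a ++ v :: b.map (t * ·))) := by
        simp
      rw [e]
      refine Valid.succ h1 h2 hV ?_
      refine _root_.le_trans (hcard v (by simp) hPv) (Finset.card_le_card ?_)
      intro x hx
      simp only [Finset.mem_insert, Finset.mem_union, List.mem_toFinset] at hx
      simp only [List.mem_toFinset, List.mem_append, List.mem_cons]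
      tauto
    -- serving inside the first block
    have serve1 : (∃ v ∈ B1, P v) →
        (∀ v ∈ B1, P v → r + 1 ≤
          (insert v ((B2.map (t * ·)).toFinset ∪ (B3.map (t * ·)).toFinset)).card) →
        ∃ a v b, B1 ++ (B2 ++ B3) = a ++ v :: b ∧ P v ∧ Valid (r+1) (a ++ v :: b.map (t * ·)) := by
      intro hex1 hcard
      obtain ⟨a, v, b, rfl, hPv, hV⟩ := ih h1 hex1
      refine ⟨a, v, b ++ (B2 ++ B3), by simp, hPv, ?_⟩
      have e : a ++ v :: (b ++ (B2 ++ B3)).map (t * ·) =
          (a ++ v :: b.map (t * ·)) ++ (B2.map (t * ·) ++ B3.map (t * ·)) := by simp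
      rw [e]
      refine Valid.succ hV (h2.map_mul t) (h3.map_mul t) ?_
      refine _root_.le_trans (hcard v (by simp) hPv) (Finset.card_le_card ?_)
      intro x hx
      simp only [Finset.mem_insert, Finset.mem_union, List.mem_toFinset] at hx
      simp only [List.mem_toFinset, List.mem_append, List.mem_cons]
      tauto
    -- serving inside the second block
    have serve2 : (∃ v ∈ B2, P v) →
        (∀ v ∈ B2, P v → r + 1 ≤
          (insert v (B3.map (t * ·)).toFinset).card) →
        ∃ a v b, B1 ++ (B2 ++ B3) = a ++ v :: b ∧ P v ∧ Valid (r+1) (a ++ v :: b.map (t * ·)) := by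
      intro hex2 hcard
      obtain ⟨a, v, b, rfl, hPv, hV⟩ := ih h2 hex2
      refine ⟨B1 ++ a, v, b ++ B3, by simp, hPv, ?_⟩
      have e : (B1 ++ a) ++ v :: (b ++ B3).map (t * ·) =
          B1 ++ ((a ++ v :: b.map (t * ·)) ++ B3.map (t * ·)) := by simp
      rw [e]
      refine Valid.succ h1 hV (h3.map_mul t) ?_
      refine _root_.le_trans (hcard v (by simp) hPv) (Finset.card_le_card ?_)
      intro x hx
      simp only [Finset.mem_insert, List.mem_toFinset] at hx
      simp only [List.mem_toFinset, List.mem_append, List.mem_cons]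
      tauto
    by_cases hex3 : ∃ v ∈ B3, P v
    · by_cases h12 : r + 1 ≤ (B1.toFinset ∪ B2.toFinset).card
      · exact serve3 hex3 (fun v _ _ => _root_.le_trans h12 (Finset.card_le_card (Finset.subset_insert _ _)))
      · -- `B1` and `B2` have the same `r` letters
        have hu : (B1.toFinset ∪ B2.toFinset).card ≤ r := by omega
        have e1 : B1.toFinset = B1.toFinset ∪ B2.toFinset :=
          Finset.eq_of_subset_of_card_le Finset.subset_union_left (_root_.le_trans hu h1.card_le)
        have e2 : B2.toFinset = B1.toFinset ∪ B2.toFinset :=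
          Finset.eq_of_subset_of_card_le Finset.subset_union_right (_root_.le_trans hu h2.card_le)
        by_cases hex1 : ∃ v ∈ B1, P v
        · apply serve1 hex1
          intro v _ _
          have hh : ((B2.map (t * ·)).toFinset ∪ (B3.map (t * ·)).toFinset).card =
              (B1 ++ (B2 ++ B3)).toFinset.card := by
            have h' : (B2.map (t * ·)).toFinset ∪ (B3.map (t * ·)).toFinset =
                ((B2 ++ B3).map (t * ·)).toFinset := by ext x; simp
            rw [h', card_toFinset_map_mul]
            have h12' : B1.toFinset = B2.toFinset := e1.trans e2.symm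
            have h3' : (B1 ++ (B2 ++ B3)).toFinset = (B2 ++ B3).toFinset := by
              rw [List.toFinset_append, List.toFinset_append, h12', ← Finset.union_assoc,
                Finset.union_self]
            rw [h3']
          refine _root_.le_trans ?_ (Finset.card_le_card (Finset.subset_insert _ _))
          rw [hh]; exact hc
        · apply serve3 hex3
          intro v _ hPv
          have hnot : v ∉ B1.toFinset ∪ B2.toFinset := by
            rw [← e1, List.mem_toFinset]
            intro hv; exact hex1 ⟨v, hv, hPv⟩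
          rw [Finset.card_insert_of_notMem hnot]
          have := h1.card_le
          rw [e1] at this
          omega
    · clear serve3
      -- `B3` misses `P`; then `t B3` misses `P`
      have key : ∀ v, P v → r + 1 ≤ (insert v (B3.map (t * ·)).toFinset).card := by
        intro v hPv
        have hnot : v ∉ (B3.map (t * ·)).toFinset := by
          intro hv
          simp only [List.mem_toFinset, List.mem_map] at hv
          obtain ⟨w, hw, rfl⟩ := hv
          exact hex3 ⟨w, hw, (hP w).1 hPv⟩
        rw [Finset.card_insert_of_notMem hnot, card_toFinset_map_mul]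
        have := h3.card_le
        omega
      by_cases hex2 : ∃ v ∈ B2, P v
      · exact serve2 hex2 (fun v _ hPv => key v hPv)
      · have hex1 : ∃ v ∈ B1, P v := by
          obtain ⟨v, hv, hPv⟩ := hex
          simp only [List.mem_append] at hv
          rcases hv with hv | hv | hv
          · exact ⟨v, hv, hPv⟩
          · exact absurd ⟨v, hv, hPv⟩ hex2
          · exact absurd ⟨v, hv, hPv⟩ hex3
        apply serve1 hex1
        intro v _ hPv
        refine _root_.le_trans (key v hPv) (Finset.card_le_card ?_)
        exact Finset.insert_subset_insert _ Finset.subset_union_right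

/-- The request of a letter (or a word) of value `c` which must produce the left factor `t`. -/
theorem Valid.serve_letter {r : ℕ} {B : List G} (hB : Valid r B) {c t : G}
    (hex : ∃ v ∈ B, v * c * v⁻¹ = t) :
    ∃ a v b, B = a ++ v :: b ∧ v * c * v⁻¹ = t ∧ Valid r (a ++ v :: b.map (t * ·)) := by
  refine Valid.serve (P := fun v => v * c * v⁻¹ = t) (t := t) ?_ hB hex
  intro v
  have e : t * v * c * (t * v)⁻¹ = t * (v * c * v⁻¹) * t⁻¹ := by
    simp only [mul_inv_rev, mul_assoc]
  constructor
  · intro h
    have h1 : t * (v * c * v⁻¹) * t⁻¹ = t := by rw [← e]; exact h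
    have h2 : t * (v * c * v⁻¹) = t * t := mul_inv_eq_iff_eq_mul.1 h1
    exact mul_left_cancel h2
  · intro h
    show t * v * c * (t * v)⁻¹ = t
    rw [e, h]; simp

theorem Valid.singleton (v : G) : Valid 1 [v] := by
  have := Valid.succ (r := 0) (Valid.zero ([] : List G)) (Valid.zero []) (Valid.zero [v]) (by simp)
  simpa using this

/-- Existence of valid lists over a set `T` with at least `j` elements, containing a given
element, of length `3 ^ (j - 1)`. -/
theorem Valid.exists_mem (T : Finset G) : ∀ (r : ℕ), r + 1 ≤ T.card → ∀ u ∈ T,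
    ∃ B : List G, Valid (r + 1) B ∧ (∀ v ∈ B, v ∈ T) ∧ u ∈ B ∧ B.length = 3 ^ r := by
  intro r
  induction r with
  | zero =>
    intro _ u hu
    exact ⟨[u], Valid.singleton u, by simpa using hu, by simp, by simp⟩
  | succ r ih =>
    intro hr u hu
    obtain ⟨B, hB, hT, huB, hlen⟩ := ih (by omega) u hu
    have hpow : 3 ^ (r + 1) = 3 ^ r + (3 ^ r + 3 ^ r) := by ring
    by_cases hc : r + 1 + 1 ≤ B.toFinset.card
    · refine ⟨B ++ (B ++ B), Valid.succ hB hB hB ?_, ?_, ?_, ?_⟩
      · refine _root_.le_trans hc (Finset.card_le_card ?_)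
        intro x hx
        simp only [List.mem_toFinset, List.mem_append] at hx ⊢
        exact Or.inl hx
      · intro v hv
        simp only [List.mem_append] at hv
        rcases hv with hv | hv | hv <;> exact hT v hv
      · simp [huB]
      · simp only [List.length_append]
        omega
    · have hlt : B.toFinset.card < T.card := by omega
      obtain ⟨w, hwT, hwB⟩ := Finset.exists_mem_notMem_of_card_lt_card hlt
      obtain ⟨B', hB', hT', hwB', hlen'⟩ := ih (by omega) w hwT
      refine ⟨B ++ (B ++ B'), Valid.succ hB hB hB' ?_, ?_, ?_, ?_⟩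
      · have h1 : insert w B.toFinset ⊆ (B ++ (B ++ B')).toFinset := by
          intro x hx
          simp only [Finset.mem_insert, List.mem_toFinset, List.mem_append] at hx ⊢
          rcases hx with rfl | hx
          · exact Or.inr (Or.inr hwB')
          · exact Or.inl hx
        refine _root_.le_trans ?_ (Finset.card_le_card h1)
        rw [Finset.card_insert_of_notMem hwB]
        have := hB.card_le
        omega
      · intro v hv
        simp only [List.mem_append] at hv
        rcases hv with hv | hv | hv
        · exact hT v hv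
        · exact hT v hv
        · exact hT' v hv
      · simp [huB]
      · simp only [List.length_append]
        omega

/-! ### Immortal pieces over `T` -/

/-- `Im T j p`: `p` is a valid list of rank `j` over `T`. -/
def Im (T : Finset G) (j : ℕ) (p : List G) : Prop :=
  Valid j p ∧ ∀ v ∈ p, v ∈ T

theorem Im.subset {T : Finset G} {j : ℕ} {p : List G} (h : Im T j p) : ∀ v ∈ p, v ∈ T := h.2

theorem Im.card_le {T : Finset G} {j : ℕ} {p : List G} (h : Im T j p) :
    j ≤ p.toFinset.card := h.1.card_le

theorem Im.toFinset_subset {T : Finset G} {j : ℕ} {p : List G} (h : Im T j p) :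
    p.toFinset ⊆ T := fun v hv => h.2 v (List.mem_toFinset.1 hv)

/-- a piece of full rank contains all of `T` -/
theorem Im.toFinset_eq {T : Finset G} {p : List G} (h : Im T T.card p) : p.toFinset = T :=
  Finset.eq_of_subset_of_card_le h.toFinset_subset h.card_le

theorem Im.mem_iff {T : Finset G} {p : List G} (h : Im T T.card p) {v : G} :
    v ∈ p ↔ v ∈ T := by
  rw [← List.mem_toFinset, h.toFinset_eq]

open scoped Pointwise in
theorem Im.smul {T : Finset G} {j : ℕ} {p : List G} (h : Im T j p) (g : G) :
    Im (g • T) j (p.map (g * ·)) := by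
  refine ⟨h.1.map_mul g, ?_⟩
  intro v hv
  simp only [List.mem_map] at hv
  obtain ⟨w, hw, rfl⟩ := hv
  exact Finset.smul_mem_smul_finset (h.2 w hw)

/-- Existence of immortal pieces. -/
theorem Im.exists_of {T : Finset G} {j : ℕ} {v : G} (hj : 1 ≤ j) (hjT : j ≤ T.card) (hv : v ∈ T) :
    ∃ p : List G, Im T j p ∧ v ∈ p ∧ p.length = 3 ^ (j - 1) := by
  obtain ⟨r, rfl⟩ : ∃ r, j = r + 1 := ⟨j - 1, by omega⟩
  obtain ⟨B, hB, hBT, hvB, hlen⟩ := Valid.exists_mem T r hjT v hv
  exact ⟨B, ⟨hB, hBT⟩, hvB, by simpa using hlen⟩

open scoped Pointwise in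
/-- Serve lemma: every request `(c, t)` with `t` in the stabiliser of `T`
realisable by a vertex of the piece is served, and the piece stays immortal over `T`. -/
theorem Im.serve {T : Finset G} {j : ℕ} {p : List G} (H : Im T j p) {c t : G}
    (ht : t • T = T) (hv : ∃ v ∈ p, v * c * v⁻¹ = t) :
    ∃ a v b, p = a ++ v :: b ∧ v * c * v⁻¹ = t ∧ Im T j (a ++ v :: b.map (t * ·)) := by
  obtain ⟨a, v, b, rfl, hv, hV⟩ := H.1.serve_letter hv
  refine ⟨a, v, b, rfl, hv, hV, ?_⟩
  intro w hw
  simp only [List.mem_append, List.mem_cons, List.mem_map] at hw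
  rcases hw with hw | rfl | ⟨x, hx, rfl⟩
  · exact H.2 w (by simp [hw])
  · exact H.2 _ (by simp)
  · rw [← ht]
    exact Finset.smul_mem_smul_finset (H.2 x (by simp [hx]))

end DecompG
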