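import Pool.Agent.DecompG.Paths

/-!
# The level induction
-/

set_option linter.unusedSectionVars false

namespace DecompG

open scoped Pointwise

variable {G : Type*} [Group G] [DecidableEq G] [Fintype G]

/-- `n` consecutive copies of the full list of `F` -/
noncomputable def rich (F : Finset G) (n : ℕ) : List G := (List.replicate n F.toList).flatten

theorem mem_rich {F : Finset G} {n : ℕ} {v : G} (h : v ∈ rich F n) : v ∈ F := by
  unfold rich at h
  rw [List.mem_flatten] at h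
  obtain ⟨l, hl, hv⟩ := h
  rw [List.mem_replicate] at hl
  rw [hl.2] at hv
  exact Finset.mem_toList.mp hv

theorem blk_rich (F : Finset G) (n : ℕ) : Blk F n (rich F n) := by
  induction n with
  | zero => exact Blk.zero _
  | succ n ih =>
    unfold rich
    rw [List.replicate_succ, List.flatten_cons]
    exact Blk.succ (fun v hv => Finset.mem_toList.mpr hv) ih

/-- big areas can be copied exactly -/
theorem Fr.big {P : Finset G → List G → Prop} {k N m : ℕ} {F : Finset G} (hkF : k < F.card)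
    {h : G} {y : List G} {h' : G} {φ : List G} (H : Fr F h y h' φ) :
    ∃ z z', (∀ v ∈ z, v ∈ F) ∧ Ins h z y z' h' ∧ Rl P k N m (fs F φ) z' := by
  induction H with
  | nil h =>
    refine ⟨rich F N, hs h (rich F N), fun v hv => mem_rich hv, Ins.nil_y, ?_⟩
    exact Rl.single (Or.inr ⟨by rw [Finset.card_smul_finset]; exact hkF, (blk_rich F N).hs h⟩)
  | @cons h u c y h' φ hu H ih =>
    obtain ⟨z, z', h1, h2, h3⟩ := ih
    refine ⟨rich F N ++ (u :: z), hs h (rich F N) ++ ((h * u) :: ((h * (u * c * u⁻¹)) * u) :: z'),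
      ?_, ?_, ?_⟩
    · intro v hv
      rcases List.mem_append.mp hv with hv | hv
      · exact mem_rich hv
      · rcases List.mem_cons.mp hv with rfl | hv
        · exact hu
        · exact h1 v hv
    · have := Ins.append (Ins.ins (Ins.next (v := u) h2)) (Ins.nil_y (h := h) (s := rich F N))
      simpa using this
    · rw [fs_cons]
      refine Rl.cons (Or.inr ⟨by rw [Finset.card_smul_finset]; exact hkF, (blk_rich F N).hs h⟩) ?_
      exact h3.sublist ((List.sublist_cons_self _ _).trans (List.sublist_cons_self _ _))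

/-- domination at all levels `> k` -/
def Dom (N k : ℕ) (G : Type*) [Group G] : Prop :=
  ∀ T : Finset G, k ≤ T.card → ∀ s q : List G, (∀ v ∈ s, v ∈ T) → Blk T N q → le s q

theorem area {P : Finset G → List G → Prop} {k N m m' M : ℕ} (hP : IsPiece k P) (hk : 1 ≤ k)
    (hDom : Dom N (k + 1) G) (hM : BLst P k N m' (Fintype.card G) M)
    (hm : M + (Fintype.card G * Fintype.card G + 1) ≤ m)
    {F : Finset G} {q : List G} (hq : Real1 P k N m F q)
    {h : G} {y : List G} {h' : G} {φ : List G} (H : Fr F h y h' φ) :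
    ∃ z z', le z q ∧ Ins h z y z' h' ∧ ((∃ δ, Grp (fs F φ) δ ∧ Rl P k N m δ z') ∨
      (F.card = k ∧ (¬ ∀ f ∈ φ, f • F = h • F) ∧ ∃ δ, Grp (fs F φ) δ ∧ Rl P k N m' δ z')) := by
  rcases hq with ⟨hF, hq⟩ | ⟨hF, hq⟩
  · by_cases hall : ∀ f ∈ φ, f • F = h • F
    · obtain ⟨n, hn, hsk⟩ := H.sk (Q := fun f => f • F = h • F) hall
      obtain ⟨z, hz1, hz2⟩ := hsk.internal hP hk hF (m := m) (by omega) hq
      refine ⟨q, z, le_refl q, hz1, Or.inl ⟨[h • F], ?_, Rl.single (Or.inl ⟨?_, hz2⟩)⟩⟩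
      · refine Grp.const ?_ ?_
        · obtain ⟨φ', rfl⟩ := H.head
          simp
        · intro A hA
          obtain ⟨f, hf, rfl⟩ := List.mem_map.mp hA
          exact hall f hf
      · rw [Finset.card_smul_finset]; exact hF
    · obtain ⟨z, δ, h1, h2, h3⟩ := hM F hF h y h' φ H (Finset.card_le_univ _) q (hq.mono (by omega))
      exact ⟨q, z, le_refl q, h1, Or.inr ⟨hF, hall, δ, h2, h3⟩⟩
  · obtain ⟨z, z', h1, h2, h3⟩ := H.big (P := P) (N := N) (m := m) hF
    exact ⟨z, z', hDom F hF z q h1 hq, h2, Or.inl ⟨fs F φ, Grp.refl _, h3⟩⟩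

theorem move {P : Finset G → List G → Prop} {k N m m' M : ℕ} (hP : IsPiece k P) (hk : 1 ≤ k)
    (hDom : Dom N (k + 1) G) (hM : BLst P k N m' (Fintype.card G) M)
    (hm : M + (Fintype.card G * Fintype.card G + 1) ≤ m) (hmm : m' ≤ m) :
    ∀ (β : List (Finset G)), β ≠ [] → ∀ (s q : List G), Cov β s → Rl P k N m β q →
    ∀ (h : G) (y o : List G) (h' : G), Ins h s y o h' →
    ∃ X z z' e, XL k h β X e ∧ Cov X o ∧ le z q ∧ Ins h z y z' h' ∧
      ((∃ δ, Grp X δ ∧ Rl P k N m δ z') ∨ (e = 1 ∧ ∃ δ, Grp X δ ∧ Rl P k N m' δ z')) := by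
  intro β
  induction β with
  | nil => intro h; exact absurd rfl h
  | cons F β ih =>
    intro _ s q hc hr h y o h' H
    obtain ⟨s1, s2, rfl, hs1, hc2⟩ := hc.split_cons
    cases β with
    | nil =>
      have hs2 := hc2.nil_eq
      subst hs2
      rw [List.append_nil] at H
      obtain ⟨φ, hφ, hcov⟩ := H.frames hs1
      obtain ⟨z, z', h1, h2, h3⟩ := area hP hk hDom hM hm hr.of_single hφ
      rcases h3 with ⟨δ, h3, h4⟩ | ⟨hF, hne, δ, h3, h4⟩
      · refine ⟨fs F φ ++ [], z, z', 0, hφ.xl (XL.last _ _), by simpa using hcov, h1, h2, Or.inl ⟨δ,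
          by simpa using h3, h4⟩⟩
      · refine ⟨fs F φ ++ [], z, z', 1, hφ.xlE (XL.last _ _) hF hne, by simpa using hcov, h1, h2,
          Or.inr ⟨rfl, δ, by simpa using h3, h4⟩⟩
    | cons F1 β =>
      obtain ⟨y1, y2, o1, o2, h1, rfl, rfl, A, B⟩ := H.split
      cases hr with
      | @cons _ _ q1 q2 hr1 hr2 =>
        obtain ⟨φ, hφ, hcov⟩ := A.frames hs1
        obtain ⟨z1, z1', a1, a2, a3⟩ := area hP hk hDom hM hm hr1 hφ
        obtain ⟨X, z2, z2', e, b1, b2, b3, b4, b5⟩ := ih (by simp) s2 q2 hc2 hr2 h1 y2 o2 h' B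
        have key : ∀ e', XL k h (F :: F1 :: β) (fs F φ ++ X) e' →
            ((∃ δ, Grp (fs F φ ++ X) δ ∧ Rl P k N m δ (z1' ++ z2')) ∨
              (e' = 1 ∧ ∃ δ, Grp (fs F φ ++ X) δ ∧ Rl P k N m' δ (z1' ++ z2'))) →
            ∃ X z z' e, XL k h (F :: F1 :: β) X e ∧ Cov X (o1 ++ o2) ∧ le z (q1 ++ q2) ∧
              Ins h z (y1 ++ y2) z' h' ∧
              ((∃ δ, Grp X δ ∧ Rl P k N m δ z') ∨ (e = 1 ∧ ∃ δ, Grp X δ ∧ Rl P k N m' δ z')) := by
          intro e' h1 h2
          exact ⟨fs F φ ++ X, z1 ++ z2, z1' ++ z2', e', h1, hcov.append b2, le_append a1 b3,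
            Ins.append b4 a2, h2⟩
        have xl1 := hφ.xl (XL.next (F0 := F) b1)
        rcases a3 with ⟨δ1, g1, r1⟩ | ⟨hF, hne, δ1, g1, r1⟩
        · rcases b5 with ⟨δ2, g2, r2⟩ | ⟨he, δ2, g2, r2⟩
          · exact key e xl1 (Or.inl ⟨δ1 ++ δ2, g1.append g2, r1.append r2⟩)
          · exact key e xl1 (Or.inr ⟨he, δ1 ++ δ2, g1.append g2, (r1.mono hmm).append r2⟩)
        · have xl2 := hφ.xlE (XL.next (F0 := F) b1) hF hne
          rcases b5 with ⟨δ2, g2, r2⟩ | ⟨he, δ2, g2, r2⟩
          · exact key 1 xl2 (Or.inr ⟨rfl, δ1 ++ δ2, g1.append g2, r1.append (r2.mono hmm)⟩)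
          · exact key 1 xl2 (Or.inr ⟨rfl, δ1 ++ δ2, g1.append g2, r1.append r2⟩)

/-- the statement proved by downward induction on the potential -/
def Good (P : Finset G → List G → Prop) (k N p m : ℕ) : Prop :=
  ∀ β : List (Finset G), List.IsChain Inc β → β.length ≤ N ^ Fintype.card G →
    p ≤ W (N ^ Fintype.card G + 1) β → ∀ s q, Cov β s → Rl P k N m β q → le s q

theorem good_step {P : Finset G → List G → Prop} {k N p m' : ℕ} (hP : IsPiece k P) (hk : 1 ≤ k)
    (hN : 2 ≤ N) (hDom : Dom N (k + 1) G) (hG : Good P k N (p + 1) m') : ∃ m, Good P k N p m := by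
  have hG' : Good P k N (p + 1) (m' + 1) := by
    intro β h1 h2 h3 s q h4 h5
    exact hG β h1 h2 h3 s q h4 (h5.mono (by omega))
  obtain ⟨M, hM⟩ := budget hP hk N (m' + 1) (Fintype.card G)
  set m := M + (Fintype.card G * Fintype.card G + 1) + (m' + 1) with hm
  refine ⟨m, ?_⟩
  intro β0 hI0 hl0 hp0 s0 q0 hc0 hr0
  by_cases hβ0 : β0 = []
  · subst hβ0
    rw [hc0.nil_eq]
    exact le_of_sublist (List.nil_sublist _)
  refine ⟨fun s s' => (∃ β q, β ≠ [] ∧ List.IsChain Inc β ∧ β.length ≤ N ^ Fintype.card G ∧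
    p ≤ W (N ^ Fintype.card G + 1) β ∧ Cov β s ∧ Rl P k N m β q ∧ le q s') ∨ le s s', ?_,
    Or.inl ⟨β0, q0, hβ0, hI0, hl0, hp0, hc0, hr0, le_refl _⟩⟩
  rintro s s' (⟨β, q, hβ, hI, hl, hp, hc, hr, hle⟩ | hle) y o h H
  · obtain ⟨X, z, z', e, x1, x2, x3, x4, x5⟩ := move hP hk hDom hM (by omega) (by omega)
      β hβ s q hc hr 1 y o h H
    obtain ⟨o', ho', hle'⟩ := le_ins (le_trans x3 hle) x4
    refine ⟨o', ho', ?_⟩
    rcases x5 with ⟨δ0, g0, r0⟩ | ⟨he, δ0, g0, r0⟩
    · obtain ⟨δ, d1, d2, d3, d4⟩ := reduce hP hk hN (by omega) δ0.length δ0 z' (Nat.le_refl _) r0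
      have hgr := g0.trans d1
      have hpot := x1.potential (R := N ^ Fintype.card G) hgr hI hl
      by_cases hδ : δ = []
      · right
        subst hδ
        rw [(hgr.cov x2).nil_eq]
        exact le_of_sublist (List.nil_sublist _)
      · left
        exact ⟨δ, z', hδ, d3, d4, by omega, hgr.cov x2, d2, hle'⟩
    · obtain ⟨δ, d1, d2, d3, d4⟩ := reduce hP hk hN (by omega) δ0.length δ0 z' (Nat.le_refl _) r0
      have hgr := g0.trans d1
      have hpot := x1.potential (R := N ^ Fintype.card G) hgr hI hl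
      right
      exact le_trans (hG' δ d3 d4 (by omega) o z' (hgr.cov x2) d2) hle'
  · obtain ⟨o', ho', h2⟩ := sim_le _ _ hle y o h H
    exact ⟨o', ho', Or.inr h2⟩

theorem good_zero {P : Finset G → List G → Prop} {k N : ℕ} (hP : IsPiece k P) (hk : 1 ≤ k)
    (hN : 2 ≤ N) (hDom : Dom N (k + 1) G) : ∃ m, Good P k N 0 m := by
  have key : ∀ j : ℕ, ∃ m, Good P k N ((N ^ Fintype.card G + 1) ^ (Fintype.card G + 1) - j) m := by
    intro j
    induction j with
    | zero =>
      refine ⟨0, ?_⟩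
      intro β _ hl hp
      exfalso
      have := W_le_of_length (g := Fintype.card G) hl (fun X _ => Finset.card_le_univ X)
      omega
    | succ j ih =>
      by_cases hj : (N ^ Fintype.card G + 1) ^ (Fintype.card G + 1) ≤ j
      · have e : (N ^ Fintype.card G + 1) ^ (Fintype.card G + 1) - (j + 1) =
          (N ^ Fintype.card G + 1) ^ (Fintype.card G + 1) - j := by omega
        rw [e]; exact ih
      · obtain ⟨m, hm⟩ := ih
        refine good_step (m' := m) hP hk hN hDom ?_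
        have e : (N ^ Fintype.card G + 1) ^ (Fintype.card G + 1) - (j + 1) + 1 =
          (N ^ Fintype.card G + 1) ^ (Fintype.card G + 1) - j := by omega
        rw [e]; exact hm
  obtain ⟨m, hm⟩ := key ((N ^ Fintype.card G + 1) ^ (Fintype.card G + 1))
  rw [Nat.sub_self] at hm
  exact ⟨m, hm⟩

theorem sublist_of_blk {T : Finset G} : ∀ {p q : List G}, (∀ v ∈ p, v ∈ T) →
    Blk T p.length q → p.Sublist q := by
  intro p
  induction p with
  | nil => intro q _ _; exact List.nil_sublist _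
  | cons v p ih =>
    intro q hp hq
    cases hq with
    | @succ _ b q' hb hq' =>
      have h1 := ih (fun w hw => hp w (by simp [hw])) hq'
      have h2 : [v].Sublist b := List.singleton_sublist.mpr (hb v (hp v (by simp)))
      exact h2.append h1

theorem Blk.split {F : Finset G} {n1 n2 : ℕ} {q : List G} (H : Blk F (n1 + n2) q) :
    ∃ q1 q2, q = q1 ++ q2 ∧ Blk F n1 q1 ∧ Blk F n2 q2 := by
  induction n1 generalizing q with
  | zero => exact ⟨[], q, rfl, Blk.zero _, by simpa using H⟩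
  | succ n1 ih =>
    rw [Nat.add_right_comm] at H
    cases H with
    | succ hb H =>
      obtain ⟨q1, q2, rfl, h1, h2⟩ := ih H
      exact ⟨_ ++ q1, q2, by simp, Blk.succ hb h1, h2⟩

theorem pcs_of_blk {P : Finset G → List G → Prop} {T : Finset G} {L : ℕ} {p : List G}
    (hp : P T p) (hl : p.length ≤ L) (hpT : ∀ v ∈ p, v ∈ T) :
    ∀ {m : ℕ} {q : List G}, Blk T (m * L) q → Pcs P T m q := by
  intro m
  induction m with
  | zero => intro q _; exact Pcs.zero _
  | succ m ih =>
    intro q hq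
    have e : (m + 1) * L = L + m * L := by ring
    rw [e] at hq
    obtain ⟨q1, q2, rfl, h1, h2⟩ := hq.split
    exact Pcs.succ hp (sublist_of_blk hpT (h1.mono hl)) (ih h2)

theorem level {P : Finset G → List G → Prop} {k N : ℕ} (hP : IsPiece k P) (hk : 1 ≤ k)
    (hN : 2 ≤ N) (hDom : Dom N (k + 1) G) : ∃ N', 2 ≤ N' ∧ Dom N' k G := by
  obtain ⟨m, hm⟩ := good_zero hP hk hN hDom
  obtain ⟨L, hL⟩ := hP.exist
  refine ⟨N + m * L, by omega, ?_⟩
  intro T hT s q hs hq
  by_cases hTk : T.card = k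
  · obtain ⟨p, hp1, hp2, hp3⟩ := hL T hTk
    have hpcs : Pcs P T m q := pcs_of_blk hp1 hp2 hp3 (hq.mono (by omega))
    refine hm [T] (by simp) ?_ (Nat.zero_le _) s q ?_ (Rl.single (Or.inl ⟨hTk, hpcs⟩))
    · simp only [List.length_cons, List.length_nil]
      exact Nat.one_le_pow _ _ (by omega)
    · have := (Cov.nil (G := G)).seg (F := T) s hs
      simpa using this
  · exact hDom T (by omega) s q hs (hq.mono (by omega))

/-- **Domination at all levels**, given immortal pieces at all levels -/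
theorem dom_all (P : ℕ → Finset G → List G → Prop) (hP : ∀ k, 1 ≤ k → IsPiece k (P k)) :
    ∃ N, 2 ≤ N ∧ Dom N 1 G := by
  have key : ∀ j : ℕ, j ≤ Fintype.card G → ∃ N, 2 ≤ N ∧ Dom N (Fintype.card G + 1 - j) G := by
    intro j
    induction j with
    | zero =>
      intro _
      refine ⟨2, le_rfl, ?_⟩
      intro T hT
      exfalso
      have := Finset.card_le_univ T
      omega
    | succ j ih =>
      intro hj
      obtain ⟨N, hN, hD⟩ := ih (by omega)
      have e : Fintype.card G + 1 - j = (Fintype.card G + 1 - (j + 1)) + 1 := by omega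
      rw [e] at hD
      exact level (hP (Fintype.card G + 1 - (j + 1)) (by omega)) (by omega) hN hD
  obtain ⟨N, hN, hD⟩ := key (Fintype.card G) le_rfl
  have e : Fintype.card G + 1 - Fintype.card G = 1 := by omega
  rw [e] at hD
  exact ⟨N, hN, hD⟩

end DecompG
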