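import Pool.Agent.DecompG.Reduce

/-!
# Frame paths, compression, and the budget lemma
-/

set_option linter.unusedSectionVars false

namespace DecompG

open scoped Pointwise

variable {G : Type*} [Group G] [DecidableEq G]

/-- frame path: inserting the word `y` letter by letter at vertices of `F` -/
inductive Fr (F : Finset G) : G → List G → G → List G → Prop
  | nil (h : G) : Fr F h [] h [h]
  | cons {h u c : G} {y : List G} {h' : G} {φ : List G} : u ∈ F →
      Fr F (h * (u * c * u⁻¹)) y h' φ → Fr F h (c :: y) h' (h :: φ)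

/-- the translated sets along a path -/
def fs (F : Finset G) (φ : List G) : List (Finset G) := φ.map (fun f => f • F)

@[simp] theorem fs_nil (F : Finset G) : fs F [] = [] := rfl
@[simp] theorem fs_cons (F : Finset G) (h : G) (φ : List G) : fs F (h :: φ) = (h • F) :: fs F φ :=
  rfl
@[simp] theorem fs_append (F : Finset G) (φ ψ : List G) : fs F (φ ++ ψ) = fs F φ ++ fs F ψ := by
  simp [fs]

theorem Fr.head {F : Finset G} {h : G} {y : List G} {h' : G} {φ : List G}
    (H : Fr F h y h' φ) : ∃ φ', φ = h :: φ' := by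
  cases H <;> exact ⟨_, rfl⟩

theorem Fr.inv {F : Finset G} {h : G} {y : List G} {h' : G} {φ : List G}
    (H : Fr F h y h' φ) : (y = [] ∧ h' = h ∧ φ = [h]) ∨ ∃ (c : G) (y' : List G) (u : G)
      (φ' : List G), y = c :: y' ∧ u ∈ F ∧ φ = h :: φ' ∧ Fr F (h * (u * c * u⁻¹)) y' h' φ' := by
  cases H with
  | nil => exact Or.inl ⟨rfl, rfl, rfl⟩
  | cons hu H => exact Or.inr ⟨_, _, _, _, rfl, hu, rfl, H⟩

theorem Ins.frames {F : Finset G} {h : G} {s y o : List G} {h' : G} (H : Ins h s y o h') :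
    (∀ v ∈ s, v ∈ F) → ∃ φ, Fr F h y h' φ ∧ Cov (fs F φ) o := by
  induction H with
  | nil h => intro _; exact ⟨[h], Fr.nil h, Cov.skip Cov.nil⟩
  | @next h v s y o h' H ih =>
    intro hs
    obtain ⟨φ, h1, h2⟩ := ih (fun w hw => hs w (by simp [hw]))
    obtain ⟨φ', rfl⟩ := h1.head
    refine ⟨_, h1, ?_⟩
    rw [fs_cons] at h2 ⊢
    refine Cov.add ?_ h2
    exact Finset.smul_mem_smul_finset (hs v (by simp))
  | @ins h v c s y o h' H ih =>
    intro hs
    obtain ⟨φ, h1, h2⟩ := ih hs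
    refine ⟨h :: φ, Fr.cons (hs v (by simp)) h1, ?_⟩
    rw [fs_cons]
    refine Cov.add ?_ (Cov.skip h2)
    exact Finset.smul_mem_smul_finset (hs v (by simp))

theorem Fr.xl {k : ℕ} {F : Finset G} {h : G} {y : List G} {h1 : G} {φ : List G}
    (H : Fr F h y h1 φ) {β X : List (Finset G)} {e : ℕ}
    (hb : XL k h1 (F :: β) ((h1 • F) :: X) e) : XL k h (F :: β) (fs F φ ++ X) e := by
  induction H with
  | nil h => exact hb
  | cons hu H ih => exact XL.frame (ih hb)

theorem Fr.xlE {k : ℕ} {F : Finset G} {h : G} {y : List G} {h1 : G} {φ : List G}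
    (H : Fr F h y h1 φ) {β X : List (Finset G)} {e : ℕ}
    (hb : XL k h1 (F :: β) ((h1 • F) :: X) e) (hk : F.card = k)
    (hne : ¬ ∀ f ∈ φ, f • F = h • F) : XL k h (F :: β) (fs F φ ++ X) 1 := by
  induction H with
  | nil h => exact absurd (by simp) hne
  | @cons h u c y h' φ hu H ih =>
    by_cases heq : h • F = (h * (u * c * u⁻¹)) • F
    · refine XL.frame (ih hb ?_)
      intro hall
      apply hne
      intro f hf
      rcases List.mem_cons.mp hf with rfl | hf
      · rfl
      · rw [hall f hf, heq]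
    · exact XL.frameE (H.xl hb) hk heq

theorem Fr.join {F : Finset G} {h : G} {y1 : List G} {h1 : G} {φ1 : List G}
    (H1 : Fr F h y1 h1 φ1) {u c : G} (hu : u ∈ F) {y2 : List G} {h' : G} {φ2 : List G}
    (H2 : Fr F (h1 * (u * c * u⁻¹)) y2 h' φ2) : Fr F h (y1 ++ c :: y2) h' (φ1 ++ φ2) := by
  induction H1 with
  | nil h => exact Fr.cons hu H2
  | cons hu' _ ih => exact Fr.cons hu' (ih H2)

/-! ## Compression -/

/-- path with all states `(frame, product of the remaining word)` in `S` -/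
inductive Pa (F : Finset G) (Q : G → Prop) (h' : G) (S : Finset (G × G)) : G → List G → Prop
  | nil : Q h' → (h', (1 : G)) ∈ S → Pa F Q h' S h' []
  | cons {h u c : G} {y : List G} : Q h → (h, (c :: y).prod) ∈ S → u ∈ F →
      Pa F Q h' S (h * (u * c * u⁻¹)) y → Pa F Q h' S h (c :: y)

/-- compressed path with `n` effective letters -/
inductive Sk (F : Finset G) (Q : G → Prop) (h' : G) : ℕ → G → List G → Prop
  | done {y : List G} : Q h' → y.prod = 1 → Sk F Q h' 0 h' y
  | step {n : ℕ} {h u c : G} {w y : List G} : Q h → w.prod = 1 → u ∈ F →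
      Sk F Q h' n (h * (u * c * u⁻¹)) y → Sk F Q h' (n + 1) h (w ++ c :: y)

theorem Pa.mem {F : Finset G} {Q : G → Prop} {h' : G} {S : Finset (G × G)} {h : G} {y : List G}
    (H : Pa F Q h' S h y) : (h, y.prod) ∈ S := by
  cases H with
  | nil _ h => simpa using h
  | cons _ h _ _ => exact h

theorem Pa.last {F : Finset G} {Q : G → Prop} {h' : G} {S : Finset (G × G)} (σ : G × G)
    {h : G} {y : List G} (H : Pa F Q h' S h y) :
    Pa F Q h' (S.erase σ) h y ∨ ∃ (w y2 : List G) (h2 : G), y = w ++ y2 ∧ σ = (h2, y2.prod) ∧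
      Q h2 ∧ ((y2 = [] ∧ h2 = h') ∨ ∃ (c : G) (y3 : List G) (u : G), y2 = c :: y3 ∧ u ∈ F ∧
        Pa F Q h' (S.erase σ) (h2 * (u * c * u⁻¹)) y3) := by
  induction H with
  | nil hq hm =>
    by_cases hs : (h', (1 : G)) = σ
    · right
      exact ⟨[], [], h', rfl, by simp [← hs], hq, Or.inl ⟨rfl, rfl⟩⟩
    · left
      exact Pa.nil hq (Finset.mem_erase.mpr ⟨hs, hm⟩)
  | @cons h u c y hq hm hu H ih =>
    rcases ih with ih | ⟨w, y2, h2, rfl, hσ, hq2, hrest⟩
    · by_cases hs : (h, (c :: y).prod) = σ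
      · right
        exact ⟨[], c :: y, h, rfl, hs.symm, hq, Or.inr ⟨c, y, u, rfl, hu, ih⟩⟩
      · left
        exact Pa.cons hq (Finset.mem_erase.mpr ⟨hs, hm⟩) hu ih
    · right
      exact ⟨c :: w, y2, h2, rfl, hσ, hq2, hrest⟩

theorem Pa.compress {F : Finset G} {Q : G → Prop} {h' : G} : ∀ (n : ℕ) {S : Finset (G × G)},
    S.card ≤ n → ∀ {h : G} {y : List G}, Pa F Q h' S h y → ∃ m ≤ n, Sk F Q h' m h y := by
  intro n
  induction n with
  | zero =>
    intro S hS h y H
    have := H.mem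
    rw [Finset.card_eq_zero.mp (by omega : S.card = 0)] at this
    simp at this
  | succ n ih =>
    intro S hS h y H
    rcases H.last (h, y.prod) with H1 | ⟨w, y2, h2, rfl, hσ, hq, hrest⟩
    · exact absurd H1.mem (by simp)
    · have e1 : h = h2 := congrArg Prod.fst hσ
      have e2 : (w ++ y2).prod = y2.prod := congrArg Prod.snd hσ
      have hw : w.prod = 1 := by
        rw [List.prod_append] at e2
        exact mul_eq_right.mp e2
      subst e1
      rcases hrest with ⟨rfl, rfl⟩ | ⟨c, y3, u, rfl, hu, H2⟩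
      · exact ⟨0, by omega, Sk.done hq (by simpa using e2)⟩
      · obtain ⟨m, hm, hsk⟩ := ih (by
          rw [Finset.card_erase_of_mem H.mem]; omega) H2
        exact ⟨m + 1, by omega, Sk.step hq hw hu hsk⟩

theorem Sk.q {F : Finset G} {Q : G → Prop} {h' : G} {n : ℕ} {h : G} {y : List G}
    (H : Sk F Q h' n h y) : Q h := by
  cases H <;> assumption

variable [Fintype G]

theorem Fr.pa {F : Finset G} {Q : G → Prop} {h : G} {y : List G} {h' : G} {φ : List G}
    (H : Fr F h y h' φ) (hQ : ∀ f ∈ φ, Q f) : Pa F Q h' Finset.univ h y := by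
  induction H with
  | nil h => exact Pa.nil (hQ h (by simp)) (Finset.mem_univ _)
  | cons hu H ih =>
    exact Pa.cons (hQ _ (by simp)) (Finset.mem_univ _) hu (ih (fun f hf => hQ f (by simp [hf])))

theorem Fr.sk {F : Finset G} {Q : G → Prop} {h : G} {y : List G} {h' : G} {φ : List G}
    (H : Fr F h y h' φ) (hQ : ∀ f ∈ φ, Q f) :
    ∃ n ≤ Fintype.card G * Fintype.card G, Sk F Q h' n h y := by
  have := (H.pa hQ).compress (Fintype.card G * Fintype.card G) (by
    rw [Finset.card_univ, Fintype.card_prod])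
  exact this

/-! ## Internal moves and travelling -/

theorem sublist_split {a b0 b : List G} {v : G} (H : (a ++ v :: b0).Sublist b) :
    ∃ A B, b = A ++ v :: B ∧ a.Sublist A ∧ b0.Sublist B := by
  obtain ⟨r1, r2, rfl, h1, h2⟩ := List.append_sublist_iff.mp H
  obtain ⟨s1, s2, rfl, h3, h4⟩ := List.cons_sublist_iff.mp h2
  obtain ⟨t1, t2, rfl⟩ := List.append_of_mem h3
  exact ⟨r1 ++ t1, t2 ++ s2, by simp, h1.trans (List.sublist_append_left _ _),
    h4.trans (List.sublist_append_right _ _)⟩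

theorem ins_at {h : G} {A B q : List G} {v c : G} {w y z : List G} {h' : G} (hw : w.prod = 1)
    (H : Ins (h * (v * c * v⁻¹)) q y z h') :
    ∃ z', Ins h (A ++ v :: B ++ q) (w ++ c :: y) z' h' ∧
      (hs h A ++ (h * v) :: hs (h * (v * c * v⁻¹)) B ++ z).Sublist z' := by
  have h1 : Ins (h * (v * c * v⁻¹)) (v :: (B ++ q)) y
      (((h * (v * c * v⁻¹)) * v) :: (hs (h * (v * c * v⁻¹)) B ++ z)) h' := by
    refine Ins.next ?_
    have := Ins.append H (Ins.nil_y (h := h * (v * c * v⁻¹)) (s := B))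
    simpa using this
  have h2 := Ins.ins h1
  have h2' : Ins (h * (v * w.prod * v⁻¹)) (v :: (B ++ q)) (c :: y)
      ((h * v) :: ((h * (v * c * v⁻¹)) * v) :: (hs (h * (v * c * v⁻¹)) B ++ z)) h' := by
    have e : h * (v * w.prod * v⁻¹) = h := by rw [hw]; simp
    rw [e]; exact h2
  obtain ⟨o', H', hsub⟩ := h2'.chunk w
  have h3 := Ins.append H' (Ins.nil_y (h := h) (s := A))
  refine ⟨hs h A ++ o', by simpa using h3, ?_⟩
  rw [List.append_assoc]
  refine List.Sublist.append_left ?_ _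
  refine List.Sublist.trans ?_ hsub
  simp

theorem Sk.internal {k : ℕ} {P : Finset G → List G → Prop} (hP : IsPiece k P) (hk : 1 ≤ k)
    {F F0 : Finset G} (hF : F.card = k) {h' : G} {n : ℕ} {h : G} {y : List G}
    (H : Sk F (fun f => f • F = F0) h' n h y) :
    ∀ {m : ℕ} {q : List G}, n < m → Pcs P F m q → ∃ z, Ins h q y z h' ∧ Pcs P F0 m z := by
  induction H with
  | @done y hq hy =>
    intro m q hm hp
    have hne : q ≠ [] := by
      obtain ⟨v, hv⟩ := Finset.card_pos.mp (by omega : 0 < F.card)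
      exact List.ne_nil_of_mem (hp.mem hP hF (by omega) v hv)
    obtain ⟨v, q', rfl⟩ := List.exists_cons_of_ne_nil hne
    have h1 : Ins (h' * (v * y.prod * v⁻¹)) (v :: q') [] (hs h' (v :: q')) h' := by
      have e : h' * (v * y.prod * v⁻¹) = h' := by rw [hy]; simp
      rw [e]; exact Ins.nil_y
    obtain ⟨o', H', hsub⟩ := h1.chunk y
    refine ⟨o', by simpa using H', ?_⟩
    have := (hp.hs hP hF h').sublist hsub
    rwa [hq] at this
  | @step n h u c w y hq hw hu H ih =>
    intro m q hm hp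
    cases hp with
    | zero => omega
    | @succ m' p b q' hpp hb hp' =>
      obtain ⟨z, hz1, hz2⟩ := ih (by omega) hp'
      have hq' := H.q
      have ht : (u * c * u⁻¹) • F = F := by
        have e : h • ((u * c * u⁻¹) • F) = h • F := by
          rw [← mul_smul, hq, ← hq']
        exact (smul_left_cancel_iff h).mp e
      obtain ⟨a, v, b0, rfl, hv, hpp'⟩ := hP.serve F p c (u * c * u⁻¹) u hF hpp ht hu rfl
      obtain ⟨A, B, rfl, hA, hB⟩ := sublist_split hb
      rw [← hv] at hz1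
      obtain ⟨z', hz', hsub⟩ := ins_at (A := A) (B := B) hw hz1
      refine ⟨z', by simpa using hz', ?_⟩
      refine Pcs.sublist ?_ hsub
      refine Pcs.succ (p := hs h (a ++ v :: hs (u * c * u⁻¹) b0)) ?_ ?_ hz2
      · rw [← hq]
        exact hP.smul F _ h hF hpp'
      · rw [hs_append, hs_cons, hs_hs, hv]
        exact (hs_sublist hA).append ((hs_sublist hB).cons_cons _)

theorem Sk.travel {k : ℕ} {P : Finset G → List G → Prop} (hP : IsPiece k P) (hk : 1 ≤ k)
    {F : Finset G} (hF : F.card = k) {Q : G → Prop} {h' : G} {n : ℕ} {h : G} {y : List G}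
    (H : Sk F Q h' n h y) :
    ∀ {m : ℕ} {q : List G}, n < m → Pcs P F m q → ∃ z, Ins h q y z h' := by
  induction H with
  | @done y hq hy =>
    intro m q hm hp
    have hne : q ≠ [] := by
      obtain ⟨v, hv⟩ := Finset.card_pos.mp (by omega : 0 < F.card)
      exact List.ne_nil_of_mem (hp.mem hP hF (by omega) v hv)
    obtain ⟨v, q', rfl⟩ := List.exists_cons_of_ne_nil hne
    have h1 : Ins (h' * (v * y.prod * v⁻¹)) (v :: q') [] (hs h' (v :: q')) h' := by
      have e : h' * (v * y.prod * v⁻¹) = h' := by rw [hy]; simp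
      rw [e]; exact Ins.nil_y
    obtain ⟨o', H', hsub⟩ := h1.chunk y
    exact ⟨o', by simpa using H'⟩
  | @step n h u c w y hq hw hu H ih =>
    intro m q hm hp
    cases hp with
    | zero => omega
    | @succ m' p b q' hpp hb hp' =>
      obtain ⟨z, hz1⟩ := ih (by omega) hp'
      obtain ⟨A, B, rfl⟩ := List.append_of_mem (hb.subset (hP.cov F p hF hpp u hu))
      obtain ⟨z', hz', hsub⟩ := ins_at (A := A) (B := B) hw hz1
      exact ⟨z', by simpa using hz'⟩

theorem Fr.travel {k : ℕ} {P : Finset G → List G → Prop} (hP : IsPiece k P) (hk : 1 ≤ k)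
    {F : Finset G} (hF : F.card = k) {h : G} {y : List G} {h' : G} {φ : List G}
    (H : Fr F h y h' φ) {q : List G}
    (hq : Pcs P F (Fintype.card G * Fintype.card G + 1) q) : ∃ z, Ins h q y z h' := by
  obtain ⟨n, hn, hsk⟩ := H.sk (Q := fun _ => True) (by simp)
  exact hsk.travel hP hk hF (by omega) hq

theorem letter {k : ℕ} {P : Finset G → List G → Prop} (hP : IsPiece k P)
    {F : Finset G} (hF : F.card = k) {u : G} (hu : u ∈ F) (h c : G) {q : List G}
    (hq : Pcs P F 1 q) : ∃ z, Ins h q [c] z (h * (u * c * u⁻¹)) := by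
  obtain ⟨A, B, rfl⟩ := List.append_of_mem (hq.mem hP hF (by omega) u hu)
  obtain ⟨z', hz', _⟩ := ins_at (h := h) (A := A) (B := B) (v := u) (c := c) (w := [])
    (q := []) (y := []) (z := []) (by simp) (Ins.nil _)
  exact ⟨z', by simpa using hz'⟩

theorem Fr.first {F : Finset G} {h : G} {y : List G} {h' : G} {φ : List G}
    (H : Fr F h y h' φ) {Z : Finset G} (hZ : Z ⊆ UN (fs F φ)) (hne : Z.Nonempty) :
    ∃ (y1 y2 : List G) (h1 : G) (φ1 φ2 : List G), y = y1 ++ y2 ∧ Fr F h y1 h1 φ1 ∧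
      Fr F h1 y2 h' φ2 ∧ Z ⊆ UN (fs F φ2) ∧ ∃ v ∈ Z, v ∈ h1 • F := by
  induction H with
  | nil h =>
    obtain ⟨v, hv⟩ := hne
    refine ⟨[], [], h, [h], [h], rfl, Fr.nil h, Fr.nil h, hZ, v, hv, ?_⟩
    have := hZ hv
    simpa using this
  | @cons h u c y h' φ hu H ih =>
    by_cases hex : ∃ v ∈ Z, v ∈ h • F
    · exact ⟨[], c :: y, h, [h], h :: φ, rfl, Fr.nil h, Fr.cons hu H, hZ, hex⟩
    · have hZ' : Z ⊆ UN (fs F φ) := by
        intro v hv
        have := hZ hv
        rw [fs_cons, UN_cons, Finset.mem_union] at this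
        rcases this with h1 | h1
        · exact absurd ⟨v, hv, h1⟩ hex
        · exact h1
      obtain ⟨y1, y2, h1, φ1, φ2, rfl, H1, H2, H3, H4⟩ := ih hZ'
      exact ⟨c :: y1, y2, h1, h :: φ1, φ2, rfl, Fr.cons hu H1, H2, H3, H4⟩

theorem Fr.visit {k : ℕ} {P : Finset G → List G → Prop} (hP : IsPiece k P) (hk : 1 ≤ k)
    {F : Finset G} (hF : F.card = k) : ∀ (n : ℕ) {Z : Finset G}, Z.card ≤ n →
    ∀ {h : G} {y : List G} {h' : G} {φ : List G}, Fr F h y h' φ → Z ⊆ UN (fs F φ) →
    ∀ {q : List G}, Pcs P F (n * (Fintype.card G * Fintype.card G + 2) +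
      (Fintype.card G * Fintype.card G + 1)) q → ∃ z, Ins h q y z h' ∧ ∀ v ∈ Z, v ∈ z := by
  intro n
  induction n with
  | zero =>
    intro Z hZ h y h' φ H _ q hq
    obtain ⟨z, hz⟩ := H.travel hP hk hF (hq.mono (by omega))
    refine ⟨z, hz, ?_⟩
    rw [Finset.card_eq_zero.mp (by omega : Z.card = 0)]
    simp
  | succ n ih =>
    intro Z hZ h y h' φ H hsub q hq
    rcases Z.eq_empty_or_nonempty with rfl | hne
    · obtain ⟨z, hz⟩ := H.travel hP hk hF (hq.mono (by omega))
      exact ⟨z, hz, by simp⟩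
    · obtain ⟨y1, y2, h1, φ1, φ2, rfl, H1, H2, H3, v0, hv0, hv0'⟩ := H.first hsub hne
      have hq' : Pcs P F ((Fintype.card G * Fintype.card G + 1) + (1 +
          (n * (Fintype.card G * Fintype.card G + 2) +
            (Fintype.card G * Fintype.card G + 1)))) q :=
        hq.mono (le_of_eq (by ring))
      obtain ⟨q1, q', rfl, hq1, hq'⟩ := hq'.split
      obtain ⟨q2, q3, rfl, hq2, hq3⟩ := hq'.split
      obtain ⟨z1, hz1⟩ := H1.travel hP hk hF hq1
      obtain ⟨z3, hz3, hz3'⟩ := ih (Z := Z \ (h1 • F)) (by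
        have : (Z \ (h1 • F)).card < Z.card := Finset.card_lt_card
          ⟨Finset.sdiff_subset, fun hs' => (Finset.mem_sdiff.mp (hs' hv0)).2 hv0'⟩
        omega) H2 (Finset.sdiff_subset.trans H3) hq3
      refine ⟨z1 ++ (hs h1 q2 ++ z3), ?_, ?_⟩
      · have e : y1 ++ y2 = y1 ++ ([] ++ y2) := rfl
        rw [e]
        exact Ins.append (Ins.append hz3 Ins.nil_y) hz1
      · intro v hv
        by_cases hv1 : v ∈ h1 • F
        · refine List.mem_append_right _ (List.mem_append_left _ ?_)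
          obtain ⟨w, hw, rfl⟩ := Finset.mem_smul_finset.mp hv1
          exact mem_hs.mpr ⟨w, hq2.mem hP hF (by omega) w hw, rfl⟩
        · exact List.mem_append_right _ (List.mem_append_right _
            (hz3' v (Finset.mem_sdiff.mpr ⟨hv, hv1⟩)))

theorem Fr.firstfull {F : Finset G} {U : Finset G} {h : G} {y : List G} {h' : G} {φ : List G}
    (H : Fr F h y h' φ) : ∀ {A : Finset G}, A ∪ (h • F) ≠ U → A ∪ UN (fs F φ) = U →
    ∃ (y1 : List G) (c : G) (y2 : List G) (u h1 : G) (φ1 φ2 : List G), y = y1 ++ c :: y2 ∧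
      Fr F h y1 h1 φ1 ∧ u ∈ F ∧ Fr F (h1 * (u * c * u⁻¹)) y2 h' φ2 ∧ φ = φ1 ++ φ2 ∧
      A ∪ UN (fs F φ1) ≠ U ∧ A ∪ UN (fs F φ1) ∪ ((h1 * (u * c * u⁻¹)) • F) = U := by
  induction H with
  | nil h =>
    intro A h1 h2
    exact absurd (by simpa using h2) h1
  | @cons h u c y h' φ hu H ih =>
    intro A h1 h2
    by_cases hfull : (A ∪ h • F) ∪ ((h * (u * c * u⁻¹)) • F) = U
    · exact ⟨[], c, y, u, h, [h], φ, rfl, Fr.nil h, hu, H, rfl, by simpa using h1,
        by simpa using hfull⟩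
    · obtain ⟨y1, c', y2, u', h1', φ1, φ2, rfl, H1, hu', H2, rfl, H3, H4⟩ := ih
        (A := A ∪ h • F) hfull (by
          rw [fs_cons, UN_cons] at h2
          rw [Finset.union_assoc]; exact h2)
      refine ⟨c :: y1, c', y2, u', h1', h :: φ1, φ2, rfl, Fr.cons hu H1, hu', H2, rfl, ?_, ?_⟩
      · rw [fs_cons, UN_cons, ← Finset.union_assoc]; exact H3
      · rw [fs_cons, UN_cons, ← Finset.union_assoc]; exact H4

/-! ## The budget lemma -/

/-- statement of the budget lemma for paths with at most `u` visited vertices -/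
def BLst (P : Finset G → List G → Prop) (k N m' u M : ℕ) : Prop :=
  ∀ F : Finset G, F.card = k → ∀ (h : G) (y : List G) (h' : G) (φ : List G), Fr F h y h' φ →
    (UN (fs F φ)).card ≤ u → ∀ q, Pcs P F M q →
    ∃ z δ, Ins h q y z h' ∧ Grp (fs F φ) δ ∧ Rl P k N m' δ z

theorem seg_step {k : ℕ} {P : Finset G → List G → Prop} (hP : IsPiece k P) (hk : 1 ≤ k)
    {N m' u M1 : ℕ} (hB : BLst P k N m' u M1) : ∀ n : ℕ, ∃ M, ∀ F U : Finset G, F.card = k →
    k < U.card → U.card ≤ u + 1 → ∀ (h : G) (y : List G) (h' : G) (φ : List G),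
    Fr F h y h' φ → UN (fs F φ) ⊆ U → ∀ q, Pcs P F M q →
    (∃ z, Ins h q y z h' ∧ Blk U n z ∧ (1 ≤ n → UN (fs F φ) = U)) ∨
    (∃ z δ, Ins h q y z h' ∧ Grp (fs F φ) δ ∧ Rl P k N m' δ z) := by
  intro n
  induction n with
  | zero =>
    refine ⟨Fintype.card G * Fintype.card G + 1, ?_⟩
    intro F U hF _ _ h y h' φ H _ q hq
    obtain ⟨z, hz⟩ := H.travel hP hk hF hq
    exact Or.inl ⟨z, hz, Blk.zero _, by omega⟩
  | succ n ih =>
    obtain ⟨Mn, hMn⟩ := ih
    set V := Fintype.card G * (Fintype.card G * Fintype.card G + 2) +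
      (Fintype.card G * Fintype.card G + 1) with hV
    refine ⟨(V + M1) + (1 + (m' + (1 + Mn))), ?_⟩
    intro F U hF hkU hUu h y h' φ H hsub q hq
    by_cases hU : UN (fs F φ) = U
    swap
    · right
      have : (UN (fs F φ)).card < U.card :=
        Finset.card_lt_card (Finset.ssubset_iff_subset_ne.mpr ⟨hsub, hU⟩)
      exact hB F hF h y h' φ H (by omega) q (hq.mono (by omega))
    by_cases hn : n = 0
    · subst hn
      left
      obtain ⟨z, hz, hz'⟩ := H.visit hP hk hF (Fintype.card G) (Z := U) (Finset.card_le_univ _)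
        (by rw [hU]) (hq.mono (by rw [← hV]; omega))
      refine ⟨z, hz, ?_, fun _ => hU⟩
      have := Blk.succ (F := U) (n := 0) (b := z) (q := []) hz' (Blk.zero _)
      simpa using this
    have hne : (∅ : Finset G) ∪ (h • F) ≠ U := by
      intro he
      rw [Finset.empty_union] at he
      rw [← he, Finset.card_smul_finset] at hkU
      omega
    obtain ⟨y1, c, y2, u0, h1, φ1, φ2, rfl, H1, hu0, H2, rfl, H3, H4⟩ :=
      H.firstfull (U := U) (A := ∅) hne (by rw [Finset.empty_union]; exact hU)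
    rw [Finset.empty_union] at H3 H4
    have hsub1 : UN (fs F φ1) ⊆ U := by
      rw [← H4]; exact Finset.subset_union_left
    have hlt1 : (UN (fs F φ1)).card < U.card :=
      Finset.card_lt_card (Finset.ssubset_iff_subset_ne.mpr ⟨hsub1, H3⟩)
    obtain ⟨h2, hh2⟩ : ∃ h2, h2 = h1 * (u0 * c * u0⁻¹) := ⟨_, rfl⟩
    rw [← hh2] at H2 H4
    rcases H2.inv with ⟨rfl, rfl, rfl⟩ | ⟨c', y3, u1, φ3, rfl, hu1, rfl, H5⟩
    · right
      obtain ⟨q1, q', rfl, hq1, hq'⟩ := hq.split
      obtain ⟨q2, q'', rfl, hq2, hq''⟩ := hq'.split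
      obtain ⟨z1, δ1, a1, a2, a3⟩ := hB F hF h y1 h1 φ1 H1 (by omega) q1 (hq1.mono (by omega))
      obtain ⟨z2, b1⟩ := letter hP hF hu0 h1 c hq2
      rw [← hh2] at b1
      refine ⟨z1 ++ (z2 ++ hs h' q''), δ1 ++ [h' • F], ?_, ?_, ?_⟩
      · have e : y1 ++ [c] = y1 ++ ([c] ++ []) := rfl
        rw [e]
        exact Ins.append (Ins.append Ins.nil_y b1) a1
      · rw [fs_append]
        exact a2.append (Grp.refl _)
      · refine a3.append (Rl.single (Or.inl ⟨by rw [Finset.card_smul_finset]; exact hF, ?_⟩))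
        exact ((hq''.mono (by omega)).hs hP hF h').sublist (List.sublist_append_right _ _)
    · have hsub3 : UN (fs F φ3) ⊆ U := by
        rw [← hU, fs_append, fs_cons, UN_append, UN_cons]
        exact Finset.subset_union_right.trans Finset.subset_union_right
      obtain ⟨q1, q', rfl, hq1, hq'⟩ := hq.split
      obtain ⟨q2, q'', rfl, hq2, hq''⟩ := hq'.split
      obtain ⟨q3, q4', rfl, hq3, hq4'⟩ := hq''.split
      obtain ⟨q4, q5, rfl, hq4, hq5⟩ := hq4'.split
      obtain ⟨z4, c1⟩ := letter hP hF hu1 h2 c' hq4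
      rcases hMn F U hF hkU hUu _ _ _ _ H5 hsub3 q5 hq5 with ⟨z5, d1, d2, d3⟩ | ⟨z5, δ5, d1, d2, d3⟩
      · left
        have Hj : Fr F h (y1 ++ [c]) h2 (φ1 ++ [h2]) := H1.join hu0 (by rw [← hh2]; exact Fr.nil _)
        obtain ⟨z1, a1, a2⟩ := Hj.visit hP hk hF (Fintype.card G) (Z := U)
          (Finset.card_le_univ _) (by rw [fs_append, UN_append, ← H4]; simp) (q := q1)
          (hq1.mono (by rw [← hV]; omega))
        refine ⟨z1 ++ (hs h2 q2 ++ (hs h2 q3 ++ (z4 ++ z5))), ?_, ?_, fun _ => hU⟩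
        · have e : y1 ++ c :: c' :: y3 = (y1 ++ [c]) ++ ([] ++ ([] ++ ([c'] ++ y3))) := by simp
          rw [e]
          exact Ins.append (Ins.append (Ins.append (Ins.append d1 c1) Ins.nil_y) Ins.nil_y) a1
        · refine Blk.succ a2 (d2.sublist ?_)
          rw [← List.append_assoc, ← List.append_assoc]
          exact List.sublist_append_right _ _
      · right
        obtain ⟨z1, δ1, a1, a2, a3⟩ := hB F hF h y1 h1 φ1 H1 (by omega) q1 (hq1.mono (by omega))
        obtain ⟨z2, b1⟩ := letter hP hF hu0 h1 c hq2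
        rw [← hh2] at b1
        refine ⟨z1 ++ (z2 ++ (hs h2 q3 ++ (z4 ++ z5))), δ1 ++ ([h2 • F] ++ δ5), ?_, ?_, ?_⟩
        · have e : y1 ++ c :: c' :: y3 = y1 ++ ([c] ++ ([] ++ ([c'] ++ y3))) := by simp
          rw [e]
          exact Ins.append (Ins.append (Ins.append (Ins.append d1 c1) Ins.nil_y) b1) a1
        · rw [fs_append]
          exact a2.append (Grp.append (Grp.refl [h2 • F]) d2)
        · refine a3.append ?_
          refine Rl.sublist ?_ (List.sublist_append_right z2 _)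
          refine (Rl.single (Or.inl ⟨by rw [Finset.card_smul_finset]; exact hF,
            hq3.hs hP hF h2⟩)).append ?_
          exact d3.sublist (List.sublist_append_right _ _)

theorem budget {k : ℕ} {P : Finset G → List G → Prop} (hP : IsPiece k P) (hk : 1 ≤ k)
    (N m' : ℕ) : ∀ u : ℕ, ∃ M, BLst P k N m' u M := by
  intro u
  induction u with
  | zero =>
    refine ⟨0, ?_⟩
    intro F hF h y h' φ H hc
    exfalso
    obtain ⟨φ', rfl⟩ := H.head
    have : h • F ⊆ UN (fs F (h :: φ')) := by rw [fs_cons, UN_cons]; exact Finset.subset_union_left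
    have := Finset.card_le_card this
    rw [Finset.card_smul_finset] at this
    omega
  | succ u ih =>
    obtain ⟨M1, hM1⟩ := ih
    obtain ⟨M2, hM2⟩ := seg_step hP hk hM1 N
    refine ⟨M1 + M2 + (m' + (Fintype.card G * Fintype.card G + 1)), ?_⟩
    intro F hF h y h' φ H hc q hq
    have hsub : ∀ f ∈ φ, f • F ⊆ UN (fs F φ) := by
      intro f hf
      exact subset_UN (List.mem_map.mpr ⟨f, hf, rfl⟩)
    by_cases hk' : (UN (fs F φ)).card = k
    · -- constant
      have hall : ∀ f ∈ φ, f • F = UN (fs F φ) := by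
        intro f hf
        refine Finset.eq_of_subset_of_card_le (hsub f hf) ?_
        rw [hk', Finset.card_smul_finset, hF]
      obtain ⟨n, hn, hsk⟩ := H.sk (Q := fun f => f • F = UN (fs F φ)) hall
      obtain ⟨z, hz1, hz2⟩ := hsk.internal hP hk hF (m := m' + (Fintype.card G * Fintype.card G + 1))
        (by omega) (hq.mono (by omega))
      refine ⟨z, [UN (fs F φ)], hz1, ?_, Rl.single (Or.inl ⟨hk', hz2.mono (by omega)⟩)⟩
      refine Grp.single ?_
      obtain ⟨φ', rfl⟩ := H.head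
      simp
    · have hkc : k < (UN (fs F φ)).card := by
        obtain ⟨φ', rfl⟩ := H.head
        have := Finset.card_le_card (hsub h (by simp))
        rw [Finset.card_smul_finset] at this
        omega
      rcases hM2 F (UN (fs F φ)) hF hkc hc h y h' φ H (Finset.Subset.refl _) q
        (hq.mono (by omega)) with ⟨z, h1, h2, h3⟩ | h4
      · refine ⟨z, [UN (fs F φ)], h1, ?_, Rl.single (Or.inr ⟨hkc, h2⟩)⟩
        refine Grp.single ?_
        obtain ⟨φ', rfl⟩ := H.head
        simp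
      · exact h4

end DecompG
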