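import Pool.Agent.DecompG.Reduce
import Pool.Agent.DecompG.Immortal

/-!
# Immortal pieces satisfy the piece axioms
-/

namespace DecompG

open scoped Pointwise

variable {G : Type*} [Group G] [DecidableEq G]

theorem isPiece_im {k : ℕ} (hk : 1 ≤ k) :
    IsPiece (G := G) k (fun (F : Finset G) (p : List G) => Im F k p) where
  cov := by
    intro F p hF H v hv
    subst hF
    exact H.mem_iff.2 hv
  smul := by
    intro F p h _ H
    exact H.smul h
  serve := by
    intro F p c t u hF H ht hu hc
    have hu' : u ∈ p := by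
      subst hF
      exact H.mem_iff.2 hu
    exact H.serve ht ⟨u, hu', hc⟩
  exist := by
    refine ⟨3 ^ (k - 1), ?_⟩
    intro F hF
    have hne : F.Nonempty := Finset.card_pos.1 (by omega)
    obtain ⟨v, hv⟩ := hne
    obtain ⟨p, hp, _, hlen⟩ := Im.exists_of (T := F) (v := v) hk (by omega) hv
    exact ⟨p, hp, hlen.le, hp.2⟩

end DecompG
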