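import Pool.Agent.DecompG.Groupings

/-!
# Realizations and reduction of groupings
-/

set_option linter.unusedSectionVars false

namespace DecompG

open scoped Pointwise

variable {G : Type*} [Group G] [DecidableEq G]

/-! ## Blocks and pieces -/

/-- `q` contains `n` consecutive blocks each containing all of `F` -/
inductive Blk (F : Finset G) : ℕ → List G → Prop
  | zero (q : List G) : Blk F 0 q
  | succ {n : ℕ} {b q : List G} : (∀ v ∈ F, v ∈ b) → Blk F n q → Blk F (n + 1) (b ++ q)

theorem Blk.sublist {F : Finset G} {n : ℕ} {q q' : List G} (H : Blk F n q) (hs : q.Sublist q') :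
    Blk F n q' := by
  induction H generalizing q' with
  | zero q => exact Blk.zero _
  | @succ n b q hb _ ih =>
    obtain ⟨r1, r2, rfl, h1, h2⟩ := List.append_sublist_iff.mp hs
    exact Blk.succ (fun v hv => h1.subset (hb v hv)) (ih h2)

theorem Blk.mono {F : Finset G} {n n' : ℕ} {q : List G} (H : Blk F n q) (h : n' ≤ n) :
    Blk F n' q := by
  induction H generalizing n' with
  | zero q => obtain rfl : n' = 0 := by omega
              exact Blk.zero _
  | @succ n b q hb _ ih =>
    cases n' with
    | zero => exact Blk.zero _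
    | succ n' => exact Blk.succ hb (ih (by omega))

theorem Blk.append {F : Finset G} {n1 n2 : ℕ} {q1 q2 : List G} (H1 : Blk F n1 q1)
    (H2 : Blk F n2 q2) : Blk F (n1 + n2) (q1 ++ q2) := by
  induction H1 with
  | zero q => rw [Nat.zero_add]; exact H2.sublist (List.sublist_append_right _ _)
  | @succ n b q hb _ ih =>
    rw [List.append_assoc, Nat.add_right_comm]
    exact Blk.succ hb ih

theorem Blk.hs {F : Finset G} {n : ℕ} {q : List G} (H : Blk F n q) (h : G) :
    Blk (h • F) n (hs h q) := by
  induction H with
  | zero q => exact Blk.zero _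
  | @succ n b q hb _ ih =>
    rw [hs_append]
    refine Blk.succ ?_ ih
    intro v hv
    obtain ⟨w, hw, rfl⟩ := Finset.mem_smul_finset.mp hv
    exact mem_hs.mpr ⟨w, hb w hw, rfl⟩

theorem Blk.mem {F : Finset G} {n : ℕ} {q : List G} (H : Blk F n q) (hn : 1 ≤ n) :
    ∀ v ∈ F, v ∈ q := by
  cases H with
  | zero => omega
  | succ hb _ => intro v hv; exact List.mem_append_left _ (hb v hv)

/-- `q` contains `n` consecutive pieces (elements of `P F`) as sublists -/
inductive Pcs (P : Finset G → List G → Prop) (F : Finset G) : ℕ → List G → Prop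
  | zero (q : List G) : Pcs P F 0 q
  | succ {n : ℕ} {p b q : List G} : P F p → p.Sublist b → Pcs P F n q → Pcs P F (n + 1) (b ++ q)

variable {P : Finset G → List G → Prop}

theorem Pcs.sublist {F : Finset G} {n : ℕ} {q q' : List G} (H : Pcs P F n q)
    (hs : q.Sublist q') : Pcs P F n q' := by
  induction H generalizing q' with
  | zero q => exact Pcs.zero _
  | @succ n p b q hp hb _ ih =>
    obtain ⟨r1, r2, rfl, h1, h2⟩ := List.append_sublist_iff.mp hs
    exact Pcs.succ hp (hb.trans h1) (ih h2)

theorem Pcs.mono {F : Finset G} {n n' : ℕ} {q : List G} (H : Pcs P F n q) (h : n' ≤ n) :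
    Pcs P F n' q := by
  induction H generalizing n' with
  | zero q => obtain rfl : n' = 0 := by omega
              exact Pcs.zero _
  | @succ n p b q hp hb _ ih =>
    cases n' with
    | zero => exact Pcs.zero _
    | succ n' => exact Pcs.succ hp hb (ih (by omega))

theorem Pcs.append {F : Finset G} {n1 n2 : ℕ} {q1 q2 : List G} (H1 : Pcs P F n1 q1)
    (H2 : Pcs P F n2 q2) : Pcs P F (n1 + n2) (q1 ++ q2) := by
  induction H1 with
  | zero q => rw [Nat.zero_add]; exact H2.sublist (List.sublist_append_right _ _)
  | @succ n p b q hp hb _ ih =>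
    rw [List.append_assoc, Nat.add_right_comm]
    exact Pcs.succ hp hb ih

theorem Pcs.split {F : Finset G} {n1 n2 : ℕ} {q : List G} (H : Pcs P F (n1 + n2) q) :
    ∃ q1 q2, q = q1 ++ q2 ∧ Pcs P F n1 q1 ∧ Pcs P F n2 q2 := by
  induction n1 generalizing q with
  | zero => exact ⟨[], q, rfl, Pcs.zero _, by simpa using H⟩
  | succ n1 ih =>
    rw [Nat.add_right_comm] at H
    cases H with
    | succ hp hb H =>
      obtain ⟨q1, q2, rfl, h1, h2⟩ := ih H
      exact ⟨_ ++ q1, q2, by simp, Pcs.succ hp hb h1, h2⟩

/-- axioms for the notion of an immortal piece at level `k` -/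
structure IsPiece (k : ℕ) (P : Finset G → List G → Prop) : Prop where
  cov : ∀ F p, F.card = k → P F p → ∀ v ∈ F, v ∈ p
  smul : ∀ F p (h : G), F.card = k → P F p → P (h • F) (hs h p)
  serve : ∀ F p (c t u : G), F.card = k → P F p → t • F = F → u ∈ F → u * c * u⁻¹ = t →
    ∃ a v b, p = a ++ v :: b ∧ v * c * v⁻¹ = t ∧ P F (a ++ v :: hs t b)
  exist : ∃ L, ∀ F : Finset G, F.card = k → ∃ p, P F p ∧ p.length ≤ L ∧ ∀ v ∈ p, v ∈ F

theorem Pcs.hs {k : ℕ} (hP : IsPiece k P) {F : Finset G} (hF : F.card = k) {n : ℕ} {q : List G}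
    (H : Pcs P F n q) (h : G) : Pcs P (h • F) n (hs h q) := by
  induction H with
  | zero q => exact Pcs.zero _
  | @succ n p b q hp hb _ ih =>
    rw [hs_append]
    exact Pcs.succ (hP.smul F p h hF hp) (hs_sublist hb) ih

theorem Pcs.mem {k : ℕ} (hP : IsPiece k P) {F : Finset G} (hF : F.card = k) {n : ℕ} {q : List G}
    (H : Pcs P F n q) (hn : 1 ≤ n) : ∀ v ∈ F, v ∈ q := by
  cases H with
  | zero => omega
  | succ hp hb _ =>
    intro v hv
    exact List.mem_append_left _ (hb.subset (hP.cov F _ hF hp v hv))

/-! ## Realizations -/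

/-- realization of a single set -/
def Real1 (P : Finset G → List G → Prop) (k N m : ℕ) (F : Finset G) (q : List G) : Prop :=
  (F.card = k ∧ Pcs P F m q) ∨ (k < F.card ∧ Blk F N q)

theorem Real1.sublist {k N m : ℕ} {F : Finset G} {q q' : List G} (H : Real1 P k N m F q)
    (hs : q.Sublist q') : Real1 P k N m F q' := by
  rcases H with ⟨h1, h2⟩ | ⟨h1, h2⟩
  · exact Or.inl ⟨h1, h2.sublist hs⟩
  · exact Or.inr ⟨h1, h2.sublist hs⟩

theorem Real1.mono {k N m m' : ℕ} {F : Finset G} {q : List G} (H : Real1 P k N m F q)
    (hm : m' ≤ m) : Real1 P k N m' F q := by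
  rcases H with ⟨h1, h2⟩ | ⟨h1, h2⟩
  · exact Or.inl ⟨h1, h2.mono hm⟩
  · exact Or.inr ⟨h1, h2⟩

theorem Real1.card_ge {k N m : ℕ} {F : Finset G} {q : List G} (H : Real1 P k N m F q) :
    k ≤ F.card := by
  rcases H with ⟨h1, h2⟩ | ⟨h1, h2⟩ <;> omega

theorem Real1.mem {k N m : ℕ} (hP : IsPiece k P) (hN : 1 ≤ N) (hm : 1 ≤ m) {F : Finset G}
    {q : List G} (H : Real1 P k N m F q) : ∀ v ∈ F, v ∈ q := by
  rcases H with ⟨h1, h2⟩ | ⟨h1, h2⟩
  · exact h2.mem hP h1 hm
  · exact h2.mem hN

/-- realization of a list of sets -/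
inductive Rl (P : Finset G → List G → Prop) (k N m : ℕ) : List (Finset G) → List G → Prop
  | nil (q : List G) : Rl P k N m [] q
  | cons {F : Finset G} {β : List (Finset G)} {q1 q2 : List G} :
      Real1 P k N m F q1 → Rl P k N m β q2 → Rl P k N m (F :: β) (q1 ++ q2)

theorem Rl.sublist {k N m : ℕ} {β : List (Finset G)} {q q' : List G} (H : Rl P k N m β q)
    (hs : q.Sublist q') : Rl P k N m β q' := by
  induction H generalizing q' with
  | nil q => exact Rl.nil _
  | @cons F β q1 q2 h1 _ ih =>
    obtain ⟨r1, r2, rfl, h3, h4⟩ := List.append_sublist_iff.mp hs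
    exact Rl.cons (h1.sublist h3) (ih h4)

theorem Rl.mono {k N m m' : ℕ} {β : List (Finset G)} {q : List G} (H : Rl P k N m β q)
    (hm : m' ≤ m) : Rl P k N m' β q := by
  induction H with
  | nil q => exact Rl.nil _
  | @cons F β q1 q2 h1 _ ih => exact Rl.cons (h1.mono hm) ih

theorem Rl.append {k N m : ℕ} {β1 β2 : List (Finset G)} {q1 q2 : List G}
    (H1 : Rl P k N m β1 q1) (H2 : Rl P k N m β2 q2) : Rl P k N m (β1 ++ β2) (q1 ++ q2) := by
  induction H1 with
  | nil q => exact H2.sublist (List.sublist_append_right _ _)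
  | @cons F β q1 q2 h1 _ ih =>
    rw [List.append_assoc]
    exact Rl.cons h1 ih

theorem Rl.split {k N m : ℕ} {β1 β2 : List (Finset G)} {q : List G}
    (H : Rl P k N m (β1 ++ β2) q) :
    ∃ q1 q2, q = q1 ++ q2 ∧ Rl P k N m β1 q1 ∧ Rl P k N m β2 q2 := by
  induction β1 generalizing q with
  | nil => exact ⟨[], q, rfl, Rl.nil _, H⟩
  | cons F β1 ih =>
    cases H with
    | cons h1 H =>
      obtain ⟨r1, r2, rfl, h3, h4⟩ := ih H
      exact ⟨_ ++ r1, r2, by simp, Rl.cons h1 h3, h4⟩

theorem Rl.single {k N m : ℕ} {F : Finset G} {q : List G} (h : Real1 P k N m F q) :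
    Rl P k N m [F] q := by
  have := Rl.cons h (Rl.nil (P := P) (k := k) (N := N) (m := m) [])
  simpa using this

theorem Rl.of_single {k N m : ℕ} {F : Finset G} {q : List G} (h : Rl P k N m [F] q) :
    Real1 P k N m F q := by
  cases h with
  | cons h1 h2 => exact h1.sublist (List.sublist_append_left _ _)

theorem Rl.card_ge {k N m : ℕ} {β : List (Finset G)} {q : List G} (H : Rl P k N m β q) :
    ∀ A ∈ β, k ≤ A.card := by
  induction H with
  | nil q => simp
  | @cons F β q1 q2 h1 _ ih =>
    intro A hA
    rcases List.mem_cons.mp hA with rfl | hA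
    · exact h1.card_ge
    · exact ih A hA

theorem Rl.mem {k N m : ℕ} (hP : IsPiece k P) (hN : 1 ≤ N) (hm : 1 ≤ m) {β : List (Finset G)}
    {q : List G} (H : Rl P k N m β q) : ∀ v ∈ UN β, v ∈ q := by
  induction H with
  | nil q => simp
  | @cons F β q1 q2 h1 _ ih =>
    intro v hv
    rw [UN_cons, Finset.mem_union] at hv
    rcases hv with hv | hv
    · exact List.mem_append_left _ (h1.mem hP hN hm v hv)
    · exact List.mem_append_right _ (ih v hv)

theorem Rl.blk {k N m : ℕ} (hP : IsPiece k P) (hN : 1 ≤ N) (hm : 1 ≤ m) {D : Finset G}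
    {segs : List (List (Finset G))} (hs : ∀ s ∈ segs, UN s = D) :
    ∀ {q : List G}, Rl P k N m segs.flatten q → Blk D segs.length q := by
  induction segs with
  | nil => intro q _; exact Blk.zero _
  | cons s segs ih =>
    intro q H
    rw [List.flatten_cons] at H
    obtain ⟨q1, q2, rfl, h1, h2⟩ := H.split
    refine Blk.succ ?_ (ih (fun s hs' => hs s (by simp [hs'])) h2)
    have := h1.mem hP hN hm
    rwa [hs s (by simp)] at this

/-! ## The content lemma -/

theorem chop {α : Type*} (L : ℕ) : ∀ (n : ℕ) (β : List α), n * L ≤ β.length →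
    ∃ (segs : List (List α)) (post : List α), β = segs.flatten ++ post ∧ segs.length = n ∧
      ∀ s ∈ segs, s.length = L := by
  intro n
  induction n with
  | zero => intro β _; exact ⟨[], β, rfl, rfl, by simp⟩
  | succ n ih =>
    intro β h
    have h1 : L ≤ β.length := by
      have : L ≤ (n + 1) * L := Nat.le_mul_of_pos_left L (by omega)
      omega
    have h2 : n * L ≤ (β.drop L).length := by
      rw [List.length_drop]
      have : (n + 1) * L = n * L + L := by ring
      omega
    obtain ⟨segs, post, h3, h4, h5⟩ := ih _ h2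
    refine ⟨β.take L :: segs, post, ?_, by simp [h4], ?_⟩
    · rw [List.flatten_cons, List.append_assoc, ← h3, List.take_append_drop]
    · intro s hs
      rcases List.mem_cons.mp hs with rfl | hs
      · rw [List.length_take]; omega
      · exact h5 s hs

theorem content {N : ℕ} (hN : 1 ≤ N) : ∀ (u : ℕ) (β : List (Finset G)),
    (∀ A ∈ β, A.Nonempty) → (UN β).card ≤ u → N ^ u ≤ β.length →
    ∃ (pre : List (Finset G)) (segs : List (List (Finset G))) (post : List (Finset G))
      (D : Finset G), β = pre ++ (segs.flatten ++ post) ∧ segs.length = N ∧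
      ∀ s ∈ segs, s ≠ [] ∧ UN s = D := by
  intro u
  induction u with
  | zero =>
    intro β hne hc hl
    cases β with
    | nil => simp at hl
    | cons A β =>
      exfalso
      obtain ⟨v, hv⟩ := hne A (by simp)
      have : v ∈ UN (A :: β) := by simp [hv]
      have h0 : UN (A :: β) = ∅ := Finset.card_eq_zero.mp (by omega)
      rw [h0] at this
      simp at this
  | succ u ih =>
    intro β hne hc hl
    obtain ⟨segs, post, h1, h2, h3⟩ := chop (N ^ u) N β (by rw [pow_succ, mul_comm] at hl; exact hl)
    have hpos : 1 ≤ N ^ u := Nat.one_le_pow _ _ hN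
    by_cases hall : ∀ s ∈ segs, UN s = UN β
    · refine ⟨[], segs, post, UN β, by simpa using h1, h2, fun s hs => ⟨?_, hall s hs⟩⟩
      rintro rfl
      have := h3 _ hs
      simp at this
      omega
    · push Not at hall
      obtain ⟨s, hs, hne'⟩ := hall
      obtain ⟨l1, l2, rfl⟩ := List.append_of_mem hs
      have hsub : UN s ⊆ UN β := by
        rw [h1]
        intro v hv
        rw [mem_UN] at hv ⊢
        obtain ⟨A, hA, hv⟩ := hv
        exact ⟨A, List.mem_append_left _ (List.mem_flatten.mpr ⟨s, hs, hA⟩), hv⟩
      have hlt : (UN s).card < (UN β).card :=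
        Finset.card_lt_card (Finset.ssubset_iff_subset_ne.mpr ⟨hsub, hne'⟩)
      have hne2 : ∀ A ∈ s, A.Nonempty := by
        intro A hA
        refine hne A ?_
        rw [h1]
        exact List.mem_append_left _ (List.mem_flatten.mpr ⟨s, hs, hA⟩)
      obtain ⟨pre', segs', post', D, h4, h5, h6⟩ := ih s hne2 (by omega) (by rw [h3 s hs])
      refine ⟨l1.flatten ++ pre', segs', post' ++ (l2.flatten ++ post), D, ?_, h5, h6⟩
      rw [h1, List.flatten_append, List.flatten_cons, h4]
      simp [List.append_assoc]

theorem UN_segs {D : Finset G} {segs : List (List (Finset G))} (hne : segs ≠ [])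
    (hs : ∀ s ∈ segs, UN s = D) : UN segs.flatten = D := by
  induction segs with
  | nil => exact absurd rfl hne
  | cons s segs ih =>
    rw [List.flatten_cons, UN_append, hs s (by simp)]
    cases segs with
    | nil => simp
    | cons s' segs =>
      rw [ih (by simp) (fun s hs' => hs s (by simp [hs']))]
      simp

theorem not_isChain {α : Type*} {r : α → α → Prop} {l : List α} (h : ¬ List.IsChain r l) :
    ∃ pre A B post, l = pre ++ A :: B :: post ∧ ¬ r A B := by
  induction l with
  | nil => simp at h
  | cons A l ih =>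
    cases l with
    | nil => simp at h
    | cons B l =>
      rw [List.isChain_cons_cons, not_and_or] at h
      rcases h with h | h
      · exact ⟨[], A, B, l, rfl, h⟩
      · obtain ⟨pre, A', B', post, h1, h2⟩ := ih h
        exact ⟨A :: pre, A', B', post, by rw [h1]; rfl, h2⟩

variable [Fintype G]

/-- reduction of a grouping to a short list with adjacent incomparable sets -/
theorem reduce {k N m : ℕ} (hP : IsPiece k P) (hk : 1 ≤ k) (hN : 2 ≤ N) (hm : 1 ≤ m) :
    ∀ (n : ℕ) (δ0 : List (Finset G)) (z : List G), δ0.length ≤ n → Rl P k N m δ0 z →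
    ∃ δ, Grp δ0 δ ∧ Rl P k N m δ z ∧ List.IsChain Inc δ ∧ δ.length ≤ N ^ Fintype.card G := by
  intro n
  induction n with
  | zero =>
    intro δ0 z hl H
    have : δ0 = [] := List.length_eq_zero_iff.mp (by omega)
    subst this
    exact ⟨[], Grp.nil, H, by simp, by simp⟩
  | succ n ih =>
    intro δ0 z hl H
    by_cases hI : List.IsChain Inc δ0
    · by_cases hlen : δ0.length ≤ N ^ Fintype.card G
      · exact ⟨δ0, Grp.refl _, H, hI, hlen⟩
      · obtain ⟨pre, segs, post, D, h1, h2, h3⟩ := content (by omega : 1 ≤ N) (Fintype.card G) δ0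
          (fun A hA => Finset.card_pos.mp (by have := H.card_ge A hA; omega))
          (Finset.card_le_univ _) (by omega)
        have hsne : segs ≠ [] := by rintro rfl; simp at h2; omega
        have hUN := UN_segs hsne (fun s hs => (h3 s hs).2)
        have hmid : 2 ≤ segs.flatten.length := by
          match segs, h2, h3 with
          | [], h2, _ => simp at h2; omega
          | [_], h2, _ => simp at h2; omega
          | s1 :: s2 :: rest, _, h3 =>
            have e1 := (h3 s1 (by simp)).1
            have e2 := (h3 s2 (by simp)).1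
            have f1 : 1 ≤ s1.length := List.length_pos_iff.mpr e1
            have f2 : 1 ≤ s2.length := List.length_pos_iff.mpr e2
            simp only [List.flatten_cons, List.length_append]
            omega
        rw [h1] at H
        obtain ⟨z1, z', rfl, H1, H'⟩ := H.split
        obtain ⟨z2, z3, rfl, H2, H3⟩ := H'.split
        have hcard : k < D.card := by
          rw [h1] at hI
          have hI2 : List.IsChain Inc segs.flatten :=
            (List.isChain_append.mp (List.isChain_append.mp hI).2.1).1
          match hf : segs.flatten, hmid with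
          | A :: B :: rest, _ =>
            rw [hf] at hI2 H2 hUN
            have hinc := (List.isChain_cons_cons.mp hI2).1
            have hA : A ⊆ D := by rw [← hUN]; exact subset_UN (by simp)
            have hB : B ⊆ D := by rw [← hUN]; exact subset_UN (by simp)
            have hlt : A ⊂ D := ⟨hA, fun hsub => hinc.2 (hB.trans hsub)⟩
            have := Finset.card_lt_card hlt
            have := H2.card_ge A (by simp)
            omega
        have hblk : Blk D N z2 := by
          have := Rl.blk hP (by omega) hm (fun s hs => (h3 s hs).2) H2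
          rwa [h2] at this
        have H4 : Rl P k N m (pre ++ ([D] ++ post)) (z1 ++ (z2 ++ z3)) :=
          H1.append ((Rl.single (Or.inr ⟨hcard, hblk⟩)).append H3)
        have hg : Grp δ0 (pre ++ ([D] ++ post)) := by
          rw [h1]
          refine (Grp.refl pre).append (Grp.append ?_ (Grp.refl post))
          have := Grp.single (X := segs.flatten) (by intro h0; rw [h0] at hmid; simp at hmid)
          rwa [hUN] at this
        obtain ⟨δ, g1, g2, g3, g4⟩ := ih _ _ (by
          have := congrArg List.length h1
          simp only [List.length_append, List.length_cons, List.length_nil] at this ⊢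
          omega) H4
        exact ⟨δ, hg.trans g1, g2, g3, g4⟩
    · obtain ⟨pre, A, B, post, h1, h2⟩ := not_isChain hI
      rw [h1] at H
      obtain ⟨z1, z', rfl, H1, H'⟩ := H.split
      have H'' : Rl P k N m ([A] ++ ([B] ++ post)) z' := H'
      obtain ⟨zA, z'', rfl, HA, H'''⟩ := H''.split
      obtain ⟨zB, z3, rfl, HB, H3⟩ := H'''.split
      have HAB : Real1 P k N m (A ∪ B) (zA ++ zB) := by
        have hAB : A ⊆ B ∨ B ⊆ A := by
          unfold Inc at h2; tauto
        rcases hAB with hAB | hAB
        · rw [Finset.union_eq_right.mpr hAB]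
          exact HB.of_single.sublist (List.sublist_append_right _ _)
        · rw [Finset.union_eq_left.mpr hAB]
          exact HA.of_single.sublist (List.sublist_append_left _ _)
      have H4 : Rl P k N m (pre ++ ([A ∪ B] ++ post)) (z1 ++ (zA ++ (zB ++ z3))) := by
        have := H1.append ((Rl.single HAB).append H3)
        simpa using this
      have hg : Grp δ0 (pre ++ ([A ∪ B] ++ post)) := by
        rw [h1]
        exact (Grp.refl pre).append (Grp.merge (Grp.refl (B :: post)))
      obtain ⟨δ, g1, g2, g3, g4⟩ := ih _ _ (by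
          have := congrArg List.length h1
          simp only [List.length_append, List.length_cons, List.length_nil] at this ⊢
          omega) H4
      exact ⟨δ, hg.trans g1, g2, g3, g4⟩

end DecompG
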