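import Mathlib
import Pool.Agent.DecompG.Defs
import Pool.Agent.DecompG.Closure
import Pool.Agent.DecompG.Core

/-!
# From the insertion game to `Pol(G)` (for `MP_0c20e5_lc`)

If for every finite group `G` the preorder `le` on lists over `G` has finitely many classes, then
every language of `Pol(G)` is decomposable.
-/

namespace DecompG

section words

variable {A G : Type*} [Group G] (π : A → G)

/-- value of a word -/
def val (x : List A) : G := (x.map π).prod

/-- list of prefix values, starting from `g` -/
def gaps : G → List A → List G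
  | g, [] => [g]
  | g, a :: x => g :: gaps (g * π a) x

@[simp] theorem val_nil : val π [] = 1 := rfl
@[simp] theorem val_cons (a : A) (x : List A) : val π (a :: x) = π a * val π x := by
  simp [val]
theorem val_append (x y : List A) : val π (x ++ y) = val π x * val π y := by
  simp [val]

theorem gaps_eq_cons (g : G) (x : List A) : ∃ s, gaps π g x = g :: s := by
  cases x with
  | nil => exact ⟨[], rfl⟩
  | cons a x => exact ⟨_, rfl⟩

/-- a shuffle of words is an insertion into the list of prefix values -/
theorem Shuf.ins {x y w : List A} (H : Shuf x y w) : ∀ h g : G,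
    Ins h (gaps π g x) (y.map π) (gaps π (h * g) w) (h * g * val π w * (g * val π x)⁻¹) := by
  induction H with
  | nil =>
    intro h g
    have e : h * g * val π [] * (g * val π [])⁻¹ = h := by simp
    rw [e]
    exact Ins.next (Ins.nil h)
  | @left a x y w H ih =>
    intro h g
    have := Ins.next (v := g) (ih h (g * π a))
    have e : h * (g * π a) * val π w * (g * π a * val π x)⁻¹ =
      h * g * val π (a :: w) * (g * val π (a :: x))⁻¹ := by simp [mul_assoc]
    rw [e, ← mul_assoc h g (π a)] at this
    exact this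
  | @right a x y w H ih =>
    intro h g
    obtain ⟨s, hs⟩ := gaps_eq_cons π g x
    have := ih (h * (g * π a * g⁻¹)) g
    rw [hs] at this ⊢
    have h2 := Ins.ins this
    have e : h * (g * π a * g⁻¹) * g = h * g * π a := by simp [mul_assoc]
    rw [e] at h2
    have e2 : h * g * π a * val π w = h * g * val π (a :: w) := by simp [mul_assoc]
    rw [e2] at h2
    exact h2

/-- an insertion into the list of prefix values is a shuffle of words -/
theorem Ins.shuf {h : G} {s y' o : List G} {h' : G} (H : Ins h s y' o h') :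
    ∀ (g : G) (x y : List A), gaps π g x = s → y.map π = y' →
    ∃ w, Shuf x y w ∧ o = gaps π (h * g) w ∧ h' = h * g * val π w * (g * val π x)⁻¹ := by
  induction H with
  | nil h =>
    intro g x y hx hy
    obtain ⟨s, hs⟩ := gaps_eq_cons π g x
    rw [hs] at hx
    exact absurd hx (by simp)
  | @next h v s y' o h' H ih =>
    intro g x y hx hy
    cases x with
    | nil =>
      simp only [gaps, List.cons.injEq] at hx
      obtain ⟨rfl, rfl⟩ := hx
      obtain ⟨rfl, rfl, rfl⟩ := H.nil_s
      have : y = [] := by simpa using hy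
      subst this
      exact ⟨[], Shuf.nil, rfl, by simp⟩
    | cons a x =>
      simp only [gaps, List.cons.injEq] at hx
      obtain ⟨rfl, hx⟩ := hx
      obtain ⟨w, hw, rfl, rfl⟩ := ih (g * π a) x y hx hy
      exact ⟨a :: w, Shuf.left hw, by simp [gaps, mul_assoc], by simp [mul_assoc]⟩
  | @ins h v c s y' o h' H ih =>
    intro g x y hx hy
    cases y with
    | nil => simp at hy
    | cons b y =>
      simp only [List.map_cons, List.cons.injEq] at hy
      obtain ⟨rfl, hy⟩ := hy
      obtain ⟨s', hs'⟩ := gaps_eq_cons π g x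
      have hv : g = v := by
        rw [hs'] at hx
        exact (List.cons.inj hx).1
      subst hv
      obtain ⟨w, hw, rfl, rfl⟩ := ih g x y hx hy
      exact ⟨b :: w, Shuf.right hw, by simp [gaps, mul_assoc], by simp [mul_assoc]⟩

/-- simulations on words -/
def WSim (R : List A → List A → Prop) : Prop :=
  ∀ x x', R x x' → val π x = val π x' ∧ ∀ y w, Shuf x y w → ∃ w', Shuf x' y w' ∧ R w w'

/-- the largest simulation on words -/
def wle (x x' : List A) : Prop := ∃ R, WSim π R ∧ R x x'

theorem wle_refl (x : List A) : wle π x x := by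
  refine ⟨Eq, ?_, rfl⟩
  rintro x _ rfl
  exact ⟨rfl, fun y w H => ⟨w, H, rfl⟩⟩

theorem wle.val_eq {x x' : List A} (h : wle π x x') : val π x = val π x' := by
  obtain ⟨R, hR, hx⟩ := h
  exact (hR _ _ hx).1

theorem wle.shuf {x x' : List A} (h : wle π x x') {y w : List A} (H : Shuf x y w) :
    ∃ w', Shuf x' y w' ∧ wle π w w' := by
  obtain ⟨R, hR, hx⟩ := h
  obtain ⟨w', H', hw⟩ := (hR _ _ hx).2 y w H
  exact ⟨w', H', R, hR, hw⟩

theorem wle_trans {x y z : List A} (h1 : wle π x y) (h2 : wle π y z) : wle π x z := by
  refine ⟨fun a b => ∃ c, wle π a c ∧ wle π c b, ?_, y, h1, h2⟩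
  rintro a b ⟨c, hac, hcb⟩
  refine ⟨(hac.val_eq π).trans (hcb.val_eq π), ?_⟩
  intro y w H
  obtain ⟨w1, H1, l1⟩ := hac.shuf π H
  obtain ⟨w2, H2, l2⟩ := hcb.shuf π H1
  exact ⟨w2, H2, w1, l1, l2⟩

theorem wle_append {x1 x1' x2 x2' : List A} (h1 : wle π x1 x1') (h2 : wle π x2 x2') :
    wle π (x1 ++ x2) (x1' ++ x2') := by
  refine ⟨fun a b => ∃ a1 a2 b1 b2, a = a1 ++ a2 ∧ b = b1 ++ b2 ∧ wle π a1 b1 ∧ wle π a2 b2, ?_,
    x1, x2, x1', x2', rfl, rfl, h1, h2⟩
  rintro a b ⟨a1, a2, b1, b2, rfl, rfl, l1, l2⟩
  refine ⟨?_, ?_⟩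
  · rw [val_append, val_append, l1.val_eq π, l2.val_eq π]
  · intro y w H
    obtain ⟨y1, y2, w1, w2, rfl, rfl, H1, H2⟩ := H.split
    obtain ⟨w1', H1', m1⟩ := l1.shuf π H1
    obtain ⟨w2', H2', m2⟩ := l2.shuf π H2
    exact ⟨w1' ++ w2', H1'.append H2', w1, w2, w1', w2', rfl, rfl, m1, m2⟩

/-- the preorder on words is generated by the game on lists of prefix values -/
theorem wle_of_le {x x' : List A} (hv : val π x = val π x') (hl : le (gaps π 1 x) (gaps π 1 x')) :
    wle π x x' := by
  refine ⟨fun a b => val π a = val π b ∧ le (gaps π 1 a) (gaps π 1 b), ?_, hv, hl⟩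
  rintro a b ⟨hab, hl⟩
  refine ⟨hab, ?_⟩
  intro y w H
  have H1 := H.ins π 1 1
  obtain ⟨o', H', l⟩ := sim_le _ _ hl _ _ _ H1
  obtain ⟨w', hw', ho, hh⟩ := H'.shuf π 1 b y rfl rfl
  refine ⟨w', hw', ?_, ?_⟩
  · rw [hab] at hh
    simpa using hh
  · rw [ho] at l
    simpa using l

/-- If `le` has finitely many classes, then `π`-recognised languages are decomposable. -/
theorem decomposable_of_finite_index [Finite G]
    (hfin : ∃ (B : Type) (_ : Finite B) (f : List G → B), ∀ s t, f s = f t → le s t)
    (U : Set G) : Decomposable {w : List A | val π w ∈ U} := by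
  obtain ⟨B, _, f, hf⟩ := hfin
  refine decomposable_of_preorder (wle π) (wle_refl π) (fun x y z => wle_trans π)
    (fun x x' y y' => wle_append π) (fun x x' y w h H => h.shuf π H) ?_ _ ?_
  · have hfac : Function.FactorsThrough (fun x : List A => {y | wle π x y})
        (fun x => (val π x, f (gaps π 1 x))) := by
      intro x x' hxx
      simp only [Prod.mk.injEq] at hxx
      obtain ⟨hv, hff⟩ := hxx
      have h1 : wle π x x' := wle_of_le π hv (hf _ _ hff)
      have h2 : wle π x' x := wle_of_le π hv.symm (hf _ _ hff.symm)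
      show {y | wle π x y} = {y | wle π x' y}
      ext y
      exact ⟨fun h => wle_trans π h2 h, fun h => wle_trans π h1 h⟩
    obtain ⟨k, hk⟩ := (Function.factorsThrough_iff _).1 hfac
    rw [hk]
    exact (Set.finite_range k).subset (Set.range_comp_subset_range _ _)
  · intro x y hx hxy
    show val π y ∈ U
    rw [← hxy.val_eq π]
    exact hx

end words

theorem val_eq_hom {A G : Type*} [Group G] (φ : FreeMonoid A →* G) (w : List A) :
    val (fun a => φ (FreeMonoid.of a)) w = φ (FreeMonoid.ofList w) := by
  induction w with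
  | nil => simp
  | cons a w ih =>
    rw [val_cons, ih, ← map_mul]
    rfl

/-- Reduction of the problem to the finiteness of the index of `le`. -/
theorem polG_decomposable_of_finite_index
    (hfin : ∀ (G : Type) [Group G] [Finite G],
      ∃ (B : Type) (_ : Finite B) (f : List G → B), ∀ s t, f s = f t → le s t)
    {A : Type*} (L : Set (List A)) (hL : PolG L) : Decomposable L := by
  have hgrp : ∀ L : Set (List A), IsGroupLanguage L → Decomposable L := by
    rintro L ⟨G, _, _, φ, U, rfl⟩
    have := decomposable_of_finite_index (A := A) (fun a => φ (FreeMonoid.of a)) (hfin G) U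
    convert this using 1
    ext w
    show φ (FreeMonoid.ofList w) ∈ U ↔ val (fun a => φ (FreeMonoid.of a)) w ∈ U
    rw [val_eq_hom]
  have hmon : ∀ M : Set (List A), IsMonomial M → Decomposable M := by
    intro M hM
    induction hM with
    | base h => exact hgrp _ h
    | step a h _ ih => exact (hgrp _ h).prod ((decomposable_singleton a).prod ih)
  obtain ⟨F, hF, hM, rfl⟩ := hL
  exact decomposable_sUnion hF (fun M h => hmon M (hM M h))

end DecompG
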